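import Pool.Agent.D0H10.PS.Det

/-! # MS: convergence in mean square -/

set_option autoImplicit false

open scoped Classical

namespace Pool.Agent.D0H10.PS

open Finset Filter MeasureTheory ProbabilityTheory

/-- the recursion over the dyadic blocks -/
lemma rec_le (V : ℕ → ℝ) (hV : ∀ N, 0 ≤ V N)
    (h : ∀ s : ℕ, ∃ (δ : ℕ → ℝ) (k2 : ℕ), Tendsto δ atTop (nhds 0) ∧
      ∀ k N, s ≤ k → k2 ≤ k → 2 ^ k ≤ N → N ≤ 2 ^ (k + 1) →
      V N ≤ 2 * V (2 ^ k) + 4 * 4 ^ (k - s) + 4 * 4 ^ k * δ k) :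
    Tendsto (fun N : ℕ => V N / (N : ℝ) ^ 2) atTop (nhds 0) := by
  rw [Metric.tendsto_atTop]
  intro ε hε
  obtain ⟨s, hs⟩ : ∃ s : ℕ, (1 / 4 : ℝ) ^ s < ε / 64 :=
    exists_pow_lt_of_lt_one (by positivity) (by norm_num)
  obtain ⟨δ, k2, hδ, hrec⟩ := h s
  obtain ⟨k0, hk0⟩ := (Metric.tendsto_atTop.1 hδ) (ε / 64) (by positivity)
  set k1 := max k0 (max s k2) with hk1
  have hstep : ∀ k, k1 ≤ k → ∀ N, 2 ^ k ≤ N → N ≤ 2 ^ (k + 1) →
      V N ≤ 2 * V (2 ^ k) + 8 * (ε / 64) * 4 ^ k := by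
    intro k hk N h1 h2
    have hsk : s ≤ k := le_trans (le_trans (le_max_left _ _) (le_max_right _ _)) hk
    have hsk2 : k2 ≤ k := le_trans (le_trans (le_max_right _ _) (le_max_right _ _)) hk
    have h3 := hrec k N hsk hsk2 h1 h2
    have h4 := hk0 k (le_trans (le_max_left _ _) hk)
    rw [Real.dist_0_eq_abs] at h4
    have h5 : δ k ≤ ε / 64 := (le_abs_self _).trans h4.le
    have h6 : (4 : ℝ) ^ (k - s) ≤ ε / 64 * 4 ^ k := by
      have e : (4 : ℝ) ^ k = 4 ^ s * 4 ^ (k - s) := by rw [← pow_add]; congr 1; omega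
      have e2 : (1 / 4 : ℝ) ^ s * 4 ^ s = 1 := by rw [← mul_pow]; norm_num
      calc (4 : ℝ) ^ (k - s) = (1 / 4 : ℝ) ^ s * 4 ^ k := by rw [e, ← mul_assoc, e2, one_mul]
        _ ≤ ε / 64 * 4 ^ k := by gcongr
    have h7 : (4 : ℝ) * 4 ^ k * δ k ≤ 4 * 4 ^ k * (ε / 64) := by gcongr
    linarith
  have hpow : ∀ k, k1 ≤ k → V (2 ^ k) ≤ V (2 ^ k1) * 2 ^ k + 4 * (ε / 64) * 4 ^ k := by
    intro k hk
    induction k, hk using Nat.le_induction with
    | base =>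
      have h1 : (1 : ℝ) ≤ 2 ^ k1 := one_le_pow₀ (by norm_num)
      have h2 : V (2 ^ k1) * 1 ≤ V (2 ^ k1) * 2 ^ k1 := mul_le_mul_of_nonneg_left h1 (hV _)
      have h3 : 0 < 4 * (ε / 64) * 4 ^ k1 := by positivity
      linarith
    | succ k hk ih =>
      have h1 := hstep k hk (2 ^ (k + 1)) (Nat.pow_le_pow_right (by norm_num) (by omega)) le_rfl
      rw [pow_succ (2 : ℝ) k, pow_succ (4 : ℝ) k]
      linarith
  obtain ⟨K, hK⟩ : ∃ K : ℕ, 2 * V (2 ^ k1) * (64 / ε) ≤ 2 ^ K := by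
    obtain ⟨K, hK⟩ := exists_nat_ge (2 * V (2 ^ k1) * (64 / ε))
    refine ⟨K, hK.trans ?_⟩
    exact_mod_cast (Nat.lt_two_pow_self (n := K)).le
  refine ⟨max (2 ^ K) (2 ^ k1), fun N hN => ?_⟩
  have hNk : 2 ^ k1 ≤ N := le_trans (le_max_right _ _) hN
  have hN1 : 0 < N := lt_of_lt_of_le (by positivity) hNk
  set k := Nat.log 2 N with hk
  have hk2 : 2 ^ k ≤ N := Nat.pow_log_le_self 2 hN1.ne'
  have hk3 : N < 2 ^ (k + 1) := Nat.lt_pow_succ_log_self (by norm_num) N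
  have hk4 : k1 ≤ k := (Nat.le_log_iff_pow_le (by norm_num) hN1.ne').2 hNk
  have hk5 : K ≤ k := (Nat.le_log_iff_pow_le (by norm_num) hN1.ne').2 (le_trans (le_max_left _ _) hN)
  have hNR : (0 : ℝ) < N := by exact_mod_cast hN1
  rw [Real.dist_0_eq_abs, abs_of_nonneg (div_nonneg (hV N) (by positivity)), div_lt_iff₀ (by positivity)]
  have h1 := hstep k hk4 N hk2 hk3.le
  have h2 := hpow k hk4
  have h3 : (4 : ℝ) ^ k ≤ (N : ℝ) ^ 2 := by
    have : (2 : ℝ) ^ k ≤ N := by exact_mod_cast hk2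
    calc (4 : ℝ) ^ k = (2 ^ k) ^ 2 := by rw [← pow_mul, mul_comm k 2, pow_mul]; norm_num
      _ ≤ (N : ℝ) ^ 2 := by gcongr
  have h4 : 2 * V (2 ^ k1) * 2 ^ k ≤ ε / 64 * 4 ^ k := by
    have h5 : (2 : ℝ) ^ K ≤ 2 ^ k := pow_le_pow_right₀ (by norm_num) hk5
    have h6 : 2 * V (2 ^ k1) ≤ ε / 64 * 2 ^ k := by
      have h7 : 2 * V (2 ^ k1) * (64 / ε) * (ε / 64) = 2 * V (2 ^ k1) := by field_simp
      calc 2 * V (2 ^ k1) = 2 * V (2 ^ k1) * (64 / ε) * (ε / 64) := h7.symm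
        _ ≤ 2 ^ k * (ε / 64) := by gcongr; linarith
        _ = _ := by ring
    calc 2 * V (2 ^ k1) * 2 ^ k ≤ ε / 64 * 2 ^ k * 2 ^ k := by gcongr
      _ = ε / 64 * 4 ^ k := by
        rw [mul_assoc, ← mul_pow]; norm_num
  have h8 : 0 < ε * (N : ℝ) ^ 2 := by positivity
  nlinarith

theorem t_MS (hfub : S_FUB) (hmom : S_MOM) : S_MS := by
  intro Ω _ P _ ξ t c hB hL ht w hw
  obtain ⟨B, k0, hB0, hM⟩ := hmom Ω P ξ t c hB hL ht
  set g : ℕ → Ω → ℝ := fun n ω => w n * sg (c n (bits ξ ω)) with hg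
  have hg1 : ∀ n ω, |g n ω| ≤ 1 := by
    intro n ω
    rw [hg]
    simp only
    rw [abs_mul, abs_sg, mul_one]
    exact hw n
  have hint : ∀ N : ℕ, Integrable (fun ω => (∑ n ∈ range N, g n ω) ^ 2) P := by
    intro N
    obtain ⟨h1, -, -⟩ := hfub Ω P ξ hB.meas hB.ind N
      (fun u _ => (∑ n ∈ range N, w n * sg (c n u)) ^ 2)
    refine h1.congr (Eventually.of_forall fun ω => ?_)
    simp only [hg]
    congr 1
    refine sum_congr rfl fun n hn => ?_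
    rw [hL.loc n (cut N (bits ξ ω)) (bits ξ ω)]
    intro j hj
    unfold cut
    rw [if_pos (by have := mem_range.1 hn; omega)]
  set V : ℕ → ℝ := fun N => ∫ ω, (∑ n ∈ range N, g n ω) ^ 2 ∂P with hVd
  have hV0 : ∀ N, 0 ≤ V N := fun N => integral_nonneg fun ω => sq_nonneg _
  have hrec := rec_le V hV0 ?_
  · refine hrec.congr fun N => ?_
    rw [hVd]
    simp only
    rw [← integral_div]
    refine integral_congr_ae (Eventually.of_forall fun ω => ?_)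
    simp only [hg, div_pow]
  · intro s
    refine ⟨fun k => 1 / 2 ^ k + 2 ^ (s + 1) * B / (2 ^ k * t k), k0, ?_, ?_⟩
    · have h1 : Tendsto (fun k : ℕ => (1 : ℝ) / 2 ^ k) atTop (nhds 0) := by
        have := tendsto_pow_atTop_nhds_zero_of_lt_one (show (0 : ℝ) ≤ 1 / 2 by norm_num) (by norm_num)
        refine this.congr fun k => ?_
        rw [one_div_pow]
      have h2 : Tendsto (fun k : ℕ => 2 ^ (s + 1) * B / (2 ^ k * t k)) atTop (nhds 0) :=
        tendsto_const_nhds.div_atTop ht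
      simpa using h1.add h2
    · intro k N hsk hk0 h1 h2
      set I : Finset ℕ := Ico (2 ^ k + 2 ^ (k - s)) N with hI
      obtain ⟨hZi, hZ⟩ := hM s k hsk hk0 w hw I (by
        intro n hn
        rw [hI, mem_Ico] at hn
        exact ⟨hn.1, by omega⟩)
      have hpt : ∀ ω, (∑ n ∈ range N, g n ω) ^ 2 ≤
          2 * (∑ n ∈ range (2 ^ k), g n ω) ^ 2 + 4 * 4 ^ (k - s) + 4 * (∑ n ∈ I, g n ω) ^ 2 := by
        intro ω
        rw [← sum_range_add_sum_Ico (fun n => g n ω) h1]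
        obtain ⟨F, hF, hF2⟩ : ∃ F : ℝ, |F| ≤ 2 ^ (k - s) ∧
            ∑ n ∈ Ico (2 ^ k) N, g n ω = F + ∑ n ∈ I, g n ω := by
          by_cases h3 : 2 ^ k + 2 ^ (k - s) ≤ N
          · refine ⟨∑ n ∈ Ico (2 ^ k) (2 ^ k + 2 ^ (k - s)), g n ω, ?_, ?_⟩
            · refine (abs_sum_le (fun n => hg1 n ω) _ _).trans ?_
              rw [Nat.add_sub_cancel_left]
              push_cast
              exact le_rfl
            · exact sum_split (fun n => g n ω) (Nat.le_add_right _ _) h3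
          · refine ⟨∑ n ∈ Ico (2 ^ k) N, g n ω, ?_, ?_⟩
            · refine (abs_sum_le (fun n => hg1 n ω) _ _).trans ?_
              exact_mod_cast (by omega : N - 2 ^ k ≤ 2 ^ (k - s))
            · have h7 : I = ∅ := Finset.Ico_eq_empty_of_le (le_of_not_ge h3)
              rw [h7, sum_empty, add_zero]
        rw [hF2]
        have h4 : F ^ 2 ≤ 4 ^ (k - s) := by
          calc F ^ 2 = |F| ^ 2 := (sq_abs F).symm
            _ ≤ (2 ^ (k - s)) ^ 2 := by gcongr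
            _ = 4 ^ (k - s) := by rw [← pow_mul, mul_comm, pow_mul]; norm_num
        set a := ∑ n ∈ range (2 ^ k), g n ω
        set b := ∑ n ∈ I, g n ω
        nlinarith [sq_nonneg (a - (F + b)), sq_nonneg (F - b)]
      have hcalc : V N ≤ ∫ ω, (2 * (∑ n ∈ range (2 ^ k), g n ω) ^ 2 + 4 * 4 ^ (k - s) +
          4 * (∑ n ∈ I, g n ω) ^ 2) ∂P := by
        refine integral_mono (hint N) ?_ hpt
        exact (((hint (2 ^ k)).const_mul 2).add (integrable_const _)).add (hZi.const_mul 4)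
      refine hcalc.trans ?_
      have i1 : Integrable (fun ω => 2 * (∑ n ∈ range (2 ^ k), g n ω) ^ 2) P := (hint _).const_mul 2
      have i2 : Integrable (fun _ : Ω => (4 * 4 ^ (k - s) : ℝ)) P := integrable_const _
      have i3 : Integrable (fun ω => 4 * (∑ n ∈ I, g n ω) ^ 2) P := hZi.const_mul 4
      have i12 : Integrable (fun ω => 2 * (∑ n ∈ range (2 ^ k), g n ω) ^ 2 + 4 * 4 ^ (k - s)) P :=
        i1.add i2
      have h8 : ∫ ω, 4 * (∑ n ∈ I, g n ω) ^ 2 ∂P = 4 * ∫ ω, (∑ n ∈ I, g n ω) ^ 2 ∂P :=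
        integral_const_mul _ _
      have h9 : ∫ ω, 2 * (∑ n ∈ range (2 ^ k), g n ω) ^ 2 ∂P =
          2 * ∫ ω, (∑ n ∈ range (2 ^ k), g n ω) ^ 2 ∂P := integral_const_mul _ _
      rw [integral_add i12 i3, integral_add i1 i2, h8, h9, integral_const]
      simp only [probReal_univ, smul_eq_mul, one_mul]
      have h5 : ∫ ω, (∑ n ∈ I, g n ω) ^ 2 ∂P ≤ 4 ^ k * (1 / 2 ^ k + 2 ^ (s + 1) * B / (2 ^ k * t k)) := hZ
      have h6 : ∫ ω, (∑ n ∈ range (2 ^ k), g n ω) ^ 2 ∂P = V (2 ^ k) := rfl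
      rw [h6]
      linarith

end Pool.Agent.D0H10.PS
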