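import Pool.Agent.D0H10.PS.Basic

/-! # PAIR: the second moment over a block -/

set_option autoImplicit false

open scoped Classical

namespace Pool.Agent.D0H10.PS

open Finset

/-- the number of the `j ≤ n` with `c j ≠ c (j - h)`, where `c` is zero at negative places -/
noncomputable def chg (c : ℕ → ZMod 2) (h n : ℕ) : ℕ :=
  ((range (n + 1)).filter (fun j => c j + (if h ≤ j then c (j - h) else 0) = 1)).card

/-- the chain argument -/
lemma chain (c : ℕ → ZMod 2) {h n X : ℕ} (hh : 0 < h) (hX : X ≤ n + 1) :
    cnt c X ≤ chg c h n * ((X + h - 1) / h) := by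
  -- residues hit
  set C := (range X).filter (fun j => c j = 1) with hC
  set R := C.image (fun j => j % h) with hR
  have h1 : R.card ≤ chg c h n := by
    -- each residue class has a least element with `c j = 1`
    have hex : ∀ r ∈ R, ∃ j, j < X ∧ j % h = r ∧ c j = 1 := by
      intro r hr
      rw [hR, mem_image] at hr
      obtain ⟨j, hj, rfl⟩ := hr
      rw [hC, mem_filter, mem_range] at hj
      exact ⟨j, hj.1, rfl, hj.2⟩
    unfold chg
    refine card_le_card_of_injOn (fun r => if hr : ∃ j, j < X ∧ j % h = r ∧ c j = 1 then Nat.find hr else 0)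
      ?_ ?_
    · intro r hr
      rw [mem_coe] at hr
      have he := hex r hr
      simp only [dif_pos he]
      obtain ⟨h2, h3, h4⟩ := Nat.find_spec he
      rw [mem_coe, mem_filter, mem_range]
      refine ⟨by omega, ?_⟩
      rw [h4]
      split_ifs with h5
      · have h6 : c (Nat.find he - h) = 0 := by
          rcases zmod2 (c (Nat.find he - h)) with h7 | h7
          · exact h7
          · exfalso
            exact Nat.find_min he (m := Nat.find he - h) (by omega)
              ⟨by omega, (Nat.mod_eq_sub_mod h5).symm.trans h3, h7⟩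
        rw [h6, add_zero]
      · rw [add_zero]
    · intro r hr r' hr' heq
      rw [mem_coe] at hr hr'
      have he := hex r hr
      have he' := hex r' hr'
      simp only [dif_pos he, dif_pos he'] at heq
      have h2 := (Nat.find_spec he).2.1
      have h3 := (Nat.find_spec he').2.1
      rw [← h2, ← h3, heq]
  have h2 : C.card ≤ R.card * ((X + h - 1) / h) := by
    refine (card_le_mul_card_image (f := fun j => j % h) C ((X + h - 1) / h) ?_).trans ?_
    · intro r hr
      have h3 : (C.filter (fun j => j % h = r)).card ≤ (range ((X + h - 1) / h)).card := by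
        refine card_le_card_of_injOn (fun j => j / h) ?_ ?_
        · intro j hj
          rw [mem_coe, mem_filter, hC, mem_filter, mem_range] at hj
          rw [mem_coe, mem_range]
          show j / h < (X + h - 1) / h
          rw [Nat.div_lt_iff_lt_mul hh]
          have h4 := Nat.div_add_mod (X + h - 1) h
          have h5 := Nat.mod_lt (X + h - 1) hh
          have h6 : (X + h - 1) / h * h = h * ((X + h - 1) / h) := mul_comm _ _
          omega
        · intro i hi j hj hij
          rw [mem_coe, mem_filter] at hi hj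
          simp only at hij
          rw [← Nat.div_add_mod i h, ← Nat.div_add_mod j h, hi.2, hj.2, hij]
      rw [card_range] at h3
      exact h3
    · rw [mul_comm]
  calc cnt c X = C.card := rfl
    _ ≤ R.card * ((X + h - 1) / h) := h2
    _ ≤ _ := Nat.mul_le_mul_right _ h1

lemma chain_real (c : ℕ → ZMod 2) {h n X x : ℕ} (hh : 0 < h) (hX : X ≤ n + 1) (hXx : X ≤ x)
    (hhx : h ≤ x) (hX0 : 0 < X) : (cnt c X : ℝ) * h ≤ 2 * x * chg c h n := by
  have h1 := chain c hh hX
  have h2 : (X + h - 1) / h * h ≤ X + h - 1 := Nat.div_mul_le_self _ _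
  have h3 : cnt c X * h ≤ chg c h n * (2 * x) := by
    calc cnt c X * h ≤ chg c h n * ((X + h - 1) / h) * h := Nat.mul_le_mul_right _ h1
      _ = chg c h n * ((X + h - 1) / h * h) := by ring
      _ ≤ chg c h n * (2 * x) := Nat.mul_le_mul_left _ (by omega)
  have h4 : ((cnt c X * h : ℕ) : ℝ) ≤ ((chg c h n * (2 * x) : ℕ) : ℝ) := by exact_mod_cast h3
  push_cast at h4
  linarith

/-- the number of the bits on which the difference of two forms depends -/
lemma card_diff {x : ℕ} (c : ℕ → ZMod 2) {m n : ℕ} (hmn : m < n) (hn : n < x) :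
    (univ.filter (fun i : Fin x => co c n i + co c m i = 1)).card = chg c (n - m) n := by
  unfold chg
  refine card_bij' (fun i _ => n - (i : ℕ)) (fun j hj => ⟨n - j, by omega⟩) ?_ ?_ ?_ ?_
  · intro i hi
    rw [mem_filter] at hi ⊢
    have h2 := hi.2
    unfold co at h2
    by_cases h : (i : ℕ) ≤ n
    · rw [if_pos h] at h2
      refine ⟨mem_range.2 (by omega), ?_⟩
      by_cases h3 : (i : ℕ) ≤ m
      · rw [if_pos h3] at h2
        rw [if_pos (by omega)]
        have : n - (i : ℕ) - (n - m) = m - i := by omega
        rw [this]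
        exact h2
      · rw [if_neg h3] at h2
        rw [if_neg (by omega)]
        exact h2
    · rw [if_neg h, if_neg (by omega)] at h2
      exact absurd h2 (by decide)
  · intro j hj
    rw [mem_filter, mem_range] at hj
    rw [mem_filter]
    refine ⟨mem_univ _, ?_⟩
    have h2 := hj.2
    unfold co
    simp only
    rw [if_pos (by omega)]
    have e1 : n - (n - j) = j := by omega
    rw [e1]
    by_cases h3 : n - m ≤ j
    · rw [if_pos h3] at h2
      rw [if_pos (by omega)]
      have : m - (n - j) = j - (n - m) := by omega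
      rw [this]
      exact h2
    · rw [if_neg h3] at h2
      rw [if_neg (by omega)]
      exact h2
  · intro i hi
    rw [mem_filter] at hi
    have h2 := hi.2
    unfold co at h2
    by_cases h : (i : ℕ) ≤ n
    · apply Fin.ext
      simp only
      omega
    · rw [if_neg h, if_neg (by omega)] at h2
      exact absurd h2 (by decide)
  · intro j hj
    rw [mem_filter, mem_range] at hj
    simp only
    omega

lemma pair_le {x X : ℕ} {t : ℝ} {p : Fin x → ℝ} (c b : ℕ → ZMod 2) (hX0 : 0 < X) (hXx : X ≤ x)
    (ht0 : 0 < t) (ht : t ≤ 1 / 2) (hp : ∀ i, t ≤ p i ∧ p i ≤ 1 - t) {m n : ℕ} (hmn : m < n)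
    (hn : n < x) (hXn : X ≤ n + 1) :
    |Ex p (fun v => sg (lin c b v n) * sg (lin c b v m))| ≤
      Real.exp (-(t * cnt c X / x)) ^ (n - m) := by
  have hx0 : 0 < x := by omega
  have hxR : (0 : ℝ) < x := by exact_mod_cast hx0
  have h : ∀ v : Fin x → ZMod 2, sg (lin c b v n) * sg (lin c b v m) =
      sg ((b n + b m) + ∑ i : Fin x, (co c n i + co c m i) * v i) := by
    intro v
    rw [← sg_add, lin_eq, lin_eq]
    congr 1
    simp_rw [add_mul]
    rw [sum_add_distrib]
    ring
  simp_rw [h]
  rw [Ex_sg, abs_mul, abs_sg, one_mul, abs_prod]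
  have h2 : ∏ i : Fin x, |if co c n i + co c m i = 1 then 1 - 2 * p i else 1| ≤
      ∏ i : Fin x, (if co c n i + co c m i = 1 then 1 - 2 * t else 1) := by
    refine prod_le_prod (fun i _ => abs_nonneg _) fun i _ => ?_
    split_ifs
    · rw [abs_le]
      constructor
      · linarith [(hp i).2]
      · linarith [(hp i).1]
    · simp
  refine h2.trans ?_
  rw [Finset.prod_ite, prod_const, prod_const_one, mul_one, card_diff c hmn hn]
  have h3 : 1 - 2 * t ≤ Real.exp (-(2 * t)) := by
    have := Real.add_one_le_exp (-(2 * t))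
    linarith
  calc (1 - 2 * t) ^ chg c (n - m) n ≤ Real.exp (-(2 * t)) ^ chg c (n - m) n :=
        pow_le_pow_left₀ (by linarith) h3 _
    _ = Real.exp (-(2 * t * chg c (n - m) n)) := by
        rw [← Real.exp_nat_mul]
        congr 1
        ring
    _ ≤ Real.exp (-(t * cnt c X / x) * (n - m : ℕ)) := by
        apply Real.exp_le_exp.2
        have h4 := chain_real c (h := n - m) (n := n) (X := X) (x := x) (by omega) hXn hXx (by omega) hX0
        have h5 : t * (cnt c X * ((n - m : ℕ) : ℝ)) ≤ t * (2 * x * chg c (n - m) n) :=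
          mul_le_mul_of_nonneg_left h4 ht0.le
        have h6 : t * cnt c X / x * ((n - m : ℕ) : ℝ) ≤ 2 * t * chg c (n - m) n := by
          rw [div_mul_eq_mul_div, div_le_iff₀ hxR]
          linarith
        linarith
    _ = _ := by
        rw [← Real.exp_nat_mul]
        congr 1
        ring

lemma geom_le {u : ℝ} (hu : 0 < u) (S : Finset ℕ) (hS : ∀ k ∈ S, 0 < k) :
    ∑ k ∈ S, Real.exp (-u) ^ k ≤ 1 / u := by
  have hq0 : 0 < Real.exp (-u) := Real.exp_pos _
  have hq1 : Real.exp (-u) < 1 := by rw [Real.exp_lt_one_iff]; linarith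
  have hsum : HasSum (fun k : ℕ => Real.exp (-u) ^ (k + 1)) (Real.exp (-u) * (1 - Real.exp (-u))⁻¹) := by
    have := (hasSum_geometric_of_lt_one hq0.le hq1).mul_left (Real.exp (-u))
    refine this.congr_fun ?_ |> id
    intro k
    rw [pow_succ, mul_comm]
  have h1 : ∑ k ∈ S, Real.exp (-u) ^ k = ∑ k ∈ S.image (fun k => k - 1), Real.exp (-u) ^ (k + 1) := by
    rw [sum_image]
    · refine sum_congr rfl fun k hk => ?_
      rw [Nat.sub_add_cancel (hS k hk)]
    · intro a ha b hb hab
      have h2 := hS a ha
      have h3 := hS b hb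
      simp only at hab
      omega
  rw [h1]
  refine (sum_le_hasSum _ (fun k _ => by positivity) hsum).trans ?_
  have h4 : Real.exp (-u) = (Real.exp u)⁻¹ := Real.exp_neg u
  have h5 : 1 + u ≤ Real.exp u := by linarith [Real.add_one_le_exp u]
  have h6 : 0 < 1 - Real.exp (-u) := by linarith
  rw [← div_eq_mul_inv, div_le_div_iff₀ h6 hu, one_mul]
  have h7 : Real.exp (-u) * Real.exp u = 1 := by rw [← Real.exp_add]; simp
  nlinarith

theorem t_PAIR : S_PAIR := by
  intro x X t p c b w I hX0 hXx ht0 ht hp h0 hI hw
  have hx0 : 0 < x := by omega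
  have hxR : (0 : ℝ) < x := by exact_mod_cast hx0
  have hM : (0 : ℝ) < cnt c X := by exact_mod_cast cnt_pos h0 hX0
  have hp01 : ∀ i, 0 ≤ p i ∧ p i ≤ 1 := fun i => ⟨by linarith [(hp i).1], by linarith [(hp i).2]⟩
  set q : ℝ := Real.exp (-(t * cnt c X / x)) with hq
  have hq0 : 0 ≤ q := (Real.exp_pos _).le
  have h1 : ∀ v : Fin x → ZMod 2, (∑ n ∈ I, w n * sg (lin c b v n)) ^ 2 =
      ∑ n ∈ I, ∑ m ∈ I, (w n * w m) * (sg (lin c b v n) * sg (lin c b v m)) := by
    intro v
    rw [sq, sum_mul_sum]
    exact sum_congr rfl fun n _ => sum_congr rfl fun m _ => by ring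
  simp_rw [h1]
  rw [Ex_sum]
  simp_rw [Ex_sum, Ex_mul]
  have hww : ∀ n m, |w n * w m| ≤ 1 := by
    intro n m
    rw [abs_mul]
    exact mul_le_one₀ (hw n) (abs_nonneg _) (hw m)
  have hterm : ∀ n ∈ I, ∀ m ∈ I, (w n * w m) * Ex p (fun v => sg (lin c b v n) * sg (lin c b v m)) ≤
      if n = m then 1 else q ^ (max n m - min n m) := by
    intro n hn m hm
    refine (le_abs_self _).trans ?_
    rw [abs_mul]
    have h2 : |Ex p (fun v => sg (lin c b v n) * sg (lin c b v m))| ≤
        if n = m then 1 else q ^ (max n m - min n m) := by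
      split_ifs with h3
      · rw [h3]
        simp_rw [sg_sq]
        rw [Ex_one]
        simp
      · rcases lt_or_gt_of_ne h3 with h4 | h4
        · rw [max_eq_right h4.le, min_eq_left h4.le]
          have e : (fun v : Fin x → ZMod 2 => sg (lin c b v n) * sg (lin c b v m)) =
              fun v => sg (lin c b v m) * sg (lin c b v n) := by
            funext v
            ring
          rw [e]
          exact pair_le c b hX0 hXx ht0 ht hp h4 (hI m hm).2 (hI m hm).1
        · rw [max_eq_left h4.le, min_eq_right h4.le]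
          exact pair_le c b hX0 hXx ht0 ht hp h4 (hI n hn).2 (hI n hn).1
    calc |w n * w m| * |Ex p (fun v => sg (lin c b v n) * sg (lin c b v m))| ≤
          1 * |Ex p (fun v => sg (lin c b v n) * sg (lin c b v m))| :=
          mul_le_mul_of_nonneg_right (hww n m) (abs_nonneg _)
      _ ≤ _ := by rw [one_mul]; exact h2
  have hu : 0 < t * cnt c X / x := by positivity
  have hrow : ∀ n ∈ I, ∑ m ∈ I, (if n = m then (1 : ℝ) else q ^ (max n m - min n m)) ≤
      1 + 2 * x / (t * cnt c X) := by
    intro n hn
    have h2 : ∑ m ∈ I, (if n = m then (1 : ℝ) else q ^ (max n m - min n m)) ≤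
        1 + (∑ m ∈ I.filter (fun m => m < n), q ^ (n - m) + ∑ m ∈ I.filter (fun m => n < m), q ^ (m - n)) := by
      have h3 : ∀ m ∈ I, (if n = m then (1 : ℝ) else q ^ (max n m - min n m)) =
          (if n = m then 1 else 0) + ((if m < n then q ^ (n - m) else 0) +
            (if n < m then q ^ (m - n) else 0)) := by
        intro m _
        rcases lt_trichotomy n m with h4 | h4 | h4
        · rw [if_neg h4.ne, if_neg h4.ne, if_neg (by omega), if_pos h4, max_eq_right h4.le,
            min_eq_left h4.le]
          ring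
        · subst h4
          simp
        · rw [if_neg h4.ne', if_neg h4.ne', if_pos h4, if_neg (by omega), max_eq_left h4.le,
            min_eq_right h4.le]
          ring
      rw [sum_congr rfl h3, sum_add_distrib, sum_add_distrib, sum_ite_eq, if_pos hn, sum_filter,
        sum_filter]
    refine h2.trans ?_
    have h5 : ∑ m ∈ I.filter (fun m => m < n), q ^ (n - m) ≤ 1 / (t * cnt c X / x) := by
      have h6 : ∑ m ∈ I.filter (fun m => m < n), q ^ (n - m) =
          ∑ k ∈ (I.filter (fun m => m < n)).image (fun m => n - m), q ^ k := by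
        rw [sum_image]
        intro a ha b hb hab
        rw [mem_coe, mem_filter] at ha hb
        simp only at hab
        omega
      rw [h6]
      refine geom_le hu _ ?_
      intro k hk
      rw [mem_image] at hk
      obtain ⟨a, ha, rfl⟩ := hk
      rw [mem_filter] at ha
      omega
    have h7 : ∑ m ∈ I.filter (fun m => n < m), q ^ (m - n) ≤ 1 / (t * cnt c X / x) := by
      have h6 : ∑ m ∈ I.filter (fun m => n < m), q ^ (m - n) =
          ∑ k ∈ (I.filter (fun m => n < m)).image (fun m => m - n), q ^ k := by
        rw [sum_image]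
        intro a ha b hb hab
        rw [mem_coe, mem_filter] at ha hb
        simp only at hab
        omega
      rw [h6]
      refine geom_le hu _ ?_
      intro k hk
      rw [mem_image] at hk
      obtain ⟨a, ha, rfl⟩ := hk
      rw [mem_filter] at ha
      omega
    have h8 : 1 / (t * cnt c X / x) = x / (t * cnt c X) := by rw [one_div_div]
    rw [h8] at h5 h7
    have h9 : 2 * (x : ℝ) / (t * cnt c X) = x / (t * cnt c X) + x / (t * cnt c X) := by ring
    rw [h9]
    linarith
  calc _ ≤ ∑ n ∈ I, ∑ m ∈ I, (if n = m then (1 : ℝ) else q ^ (max n m - min n m)) :=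
        sum_le_sum fun n hn => sum_le_sum fun m hm => hterm n hn m hm
    _ ≤ ∑ n ∈ I, (1 + 2 * x / (t * cnt c X)) := sum_le_sum hrow
    _ = _ := by rw [sum_const, nsmul_eq_mul]

end Pool.Agent.D0H10.PS
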