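import Pool.Agent.D0H10.PS.Basic

/-! # PART: the partitions -/

set_option autoImplicit false

open scoped Classical

namespace Pool.Agent.D0H10.PS

open Finset

/-- `pA` depends on the elements up to `n` only -/
lemma pA_congr {A B : Set ℕ} {n : ℕ} (h : ∀ j, 0 < j → j ≤ n → (j ∈ A ↔ j ∈ B)) : pA A n = pA B n := by
  unfold pA Nat.Partition.restricted
  congr 1
  refine filter_congr fun p _ => ?_
  refine forall₂_congr fun i hi => ?_
  exact h i (p.parts_pos hi) (p.le_of_mem_parts hi)

/-- adding the part `a` -/
lemma pA_insert {A : Set ℕ} {a n : ℕ} (ha : a ∈ A) (ha0 : 0 < a) (han : a ≤ n) :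
    pA A n = pA (A \ {a}) n + pA A (n - a) := by
  unfold pA Nat.Partition.restricted
  rw [← card_filter_add_card_filter_not (s := univ.filter (fun x : n.Partition => ∀ i ∈ x.parts, i ∈ A))
    (fun x => a ∉ x.parts), filter_filter, filter_filter]
  congr 1
  · refine congrArg card (Finset.ext fun p => ?_)
    refine (@mem_filter _ _ _ _ _).trans (Iff.trans ?_ (@mem_filter _ _ (_) _ _).symm)
    refine and_congr_right fun _ => ?_
    constructor
    · rintro ⟨h1, h2⟩ i hi
      exact ⟨h1 i hi, fun h => h2 (by rw [Set.mem_singleton_iff] at h; rwa [h] at hi)⟩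
    · intro h
      exact ⟨fun i hi => (h i hi).1, fun h2 => (h a h2).2 rfl⟩
  · refine card_bij' (fun p hp => Nat.Partition.partitionWithPartEquiv ha0 han ⟨p, ?_⟩)
      (fun q _ => ((Nat.Partition.partitionWithPartEquiv ha0 han).symm q).1) ?_ ?_ ?_ ?_
    · rw [mem_filter] at hp
      exact not_not.1 hp.2.2
    · intro p hp
      rw [mem_filter] at hp ⊢
      refine ⟨mem_univ _, fun i hi => ?_⟩
      rw [Nat.Partition.partitionWithPartEquiv_apply_parts] at hi
      exact hp.2.1 i (Multiset.mem_of_mem_erase hi)
    · intro q hq
      rw [mem_filter] at hq ⊢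
      refine ⟨mem_univ _, fun i hi => ?_, ?_⟩
      · rw [Nat.Partition.partitionWithPartEquiv_symm_apply_parts, Multiset.mem_cons] at hi
        rcases hi with rfl | hi
        · exact ha
        · exact hq.2 i hi
      · rw [not_not, Nat.Partition.partitionWithPartEquiv_symm_apply_parts]
        exact Multiset.mem_cons_self _ _
    · intro p hp
      simp
    · intro q hq
      simp

/-- the recursion over the large parts -/
lemma pA_rec (A : Set ℕ) (x n : ℕ) (hxn : x ≤ n) (hn : n < 2 * x) :
    pA A n = pA (A ∩ Set.Iio x) n + ∑ a ∈ Icc x n, if a ∈ A then pA A (n - a) else 0 := by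
  have hx0 : 0 < x := by omega
  have key : ∀ m, x ≤ m → m ≤ n + 1 → pA (A ∩ Set.Iio m) n =
      pA (A ∩ Set.Iio x) n + ∑ a ∈ Ico x m, if a ∈ A then pA A (n - a) else 0 := by
    intro m hm
    induction m, hm using Nat.le_induction with
    | base => intro _; simp
    | succ m hm ih =>
      intro hm2
      rw [sum_Ico_succ_top hm, ← add_assoc, ← ih (by omega)]
      by_cases hA : m ∈ A
      · rw [if_pos hA]
        have h1 : m ∈ A ∩ Set.Iio (m + 1) := ⟨hA, Nat.lt_succ_self m⟩
        rw [pA_insert h1 (by omega) (by omega)]
        congr 1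
        · refine pA_congr fun j _ _ => ?_
          simp only [Set.mem_sdiff, Set.mem_inter_iff, Set.mem_Iio, Set.mem_singleton_iff]
          constructor
          · rintro ⟨⟨h2, h3⟩, h4⟩
            exact ⟨h2, by omega⟩
          · rintro ⟨h2, h3⟩
            exact ⟨⟨h2, by omega⟩, by omega⟩
        · refine pA_congr fun j _ hj => ?_
          simp only [Set.mem_inter_iff, Set.mem_Iio]
          constructor
          · exact fun h => h.1
          · exact fun h => ⟨h, by omega⟩
      · rw [if_neg hA, add_zero]
        refine pA_congr fun j _ _ => ?_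
        simp only [Set.mem_inter_iff, Set.mem_Iio]
        constructor
        · rintro ⟨h2, h3⟩
          refine ⟨h2, ?_⟩
          have : j ≠ m := fun h => hA (h ▸ h2)
          omega
        · rintro ⟨h2, h3⟩
          exact ⟨h2, by omega⟩
  have h1 := key (n + 1) (by omega) le_rfl
  rw [show Ico x (n + 1) = Icc x n from rfl] at h1
  rw [← h1]
  refine pA_congr fun j _ hj => ?_
  simp only [Set.mem_inter_iff, Set.mem_Iio]
  constructor
  · exact fun h => ⟨h, by omega⟩
  · exact fun h => h.1

lemma pA_zero (A : Set ℕ) : pA A 0 = 1 := by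
  unfold pA Nat.Partition.restricted
  rw [card_eq_one]
  refine ⟨default, ?_⟩
  ext p
  rw [mem_filter, mem_singleton]
  constructor
  · intro _
    exact Subsingleton.elim _ _
  · rintro rfl
    refine ⟨mem_univ _, fun i hi => ?_⟩
    simp at hi

theorem t_PART : S_PART := by
  intro f hf
  refine ⟨fun u => ?_, fun n u u' h => ?_, fun x n u hx hn => ?_⟩
  · unfold conv
    simp [hf, pA_zero]
  · unfold conv
    refine sum_congr rfl fun j hj => ?_
    rw [pA_congr (A := {a | u a = 1}) (B := {a | u' a = 1})]
    intro i _ hi
    rw [Set.mem_ofPred_eq, Set.mem_ofPred_eq, h i (by omega)]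
  · have hx0 : 0 < x := by omega
    unfold conv
    set A : Set ℕ := {a | u a = 1} with hA
    have hcut : {a | cut x u a = 1} = A ∩ Set.Iio x := by
      ext a
      simp only [Set.mem_ofPred_eq, Set.mem_inter_iff, Set.mem_Iio, hA, cut]
      split_ifs with h
      · exact ⟨fun h1 => ⟨h1, h⟩, fun h1 => h1.1⟩
      · constructor
        · intro h1; exact absurd h1 (by decide)
        · intro h1; exact absurd h1.2 h
    rw [hcut]
    -- split each term
    have h1 : ∀ j ∈ range (n + 1), f j * (pA A (n - j) : ZMod 2) =
        f j * (pA (A ∩ Set.Iio x) (n - j) : ZMod 2) +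
          ∑ a ∈ Icc x n, if a + j ≤ n then f j * (pA A (n - a - j) : ZMod 2) * u a else 0 := by
      intro j hj
      rw [mem_range] at hj
      by_cases hjx : x ≤ n - j
      · rw [pA_rec A x (n - j) hjx (by omega)]
        push_cast
        rw [mul_add, mul_sum]
        congr 1
        have h2 : Icc x (n - j) = (Icc x n).filter (fun a => a + j ≤ n) := by
          ext a
          simp only [mem_Icc, mem_filter]
          omega
        rw [h2, sum_filter]
        refine sum_congr rfl fun a ha => ?_
        by_cases h3 : a + j ≤ n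
        · rw [if_pos h3, if_pos h3]
          have e : n - j - a = n - a - j := by omega
          by_cases h4 : a ∈ A
          · rw [if_pos h4, e, (show u a = 1 from h4), mul_one]
          · rw [if_neg h4]
            have h5 : u a = 0 := (zmod2 (u a)).resolve_right h4
            rw [h5, mul_zero, mul_zero]
        · rw [if_neg h3, if_neg h3]
      · have h2 : pA A (n - j) = pA (A ∩ Set.Iio x) (n - j) := by
          refine pA_congr fun i _ hi => ?_
          simp only [Set.mem_inter_iff, Set.mem_Iio]
          exact ⟨fun h => ⟨h, by omega⟩, fun h => h.1⟩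
        rw [h2]
        have h3 : ∑ a ∈ Icc x n, (if a + j ≤ n then f j * (pA A (n - a - j) : ZMod 2) * u a else 0) = 0 := by
          refine sum_eq_zero fun a ha => ?_
          rw [mem_Icc] at ha
          rw [if_neg (by omega)]
        rw [h3, add_zero]
    rw [sum_congr rfl h1, sum_add_distrib]
    congr 1
    rw [sum_comm]
    refine sum_congr rfl fun a ha => ?_
    rw [mem_Icc] at ha
    rw [sum_mul]
    have h2 : range (n - a + 1) = (range (n + 1)).filter (fun j => a + j ≤ n) := by
      ext j
      simp only [mem_range, mem_filter]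
      omega
    rw [h2, sum_filter]

end Pool.Agent.D0H10.PS
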