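import Pool.Agent.D0H10.PS.Grow
import Pool.Agent.D0H10.PS.Pair
import Pool.Agent.D0H10.PS.Part
import Pool.Agent.D0H10.PS.Ms
import Pool.Agent.D0H98.PS.Mom
import Pool.Agent.D0H98.PS.As

/-! # From the signed sums to the densities of the patterns -/

set_option autoImplicit false

open scoped Classical

namespace Pool.Agent.D0H10.PS

open Finset Filter MeasureTheory ProbabilityTheory

theorem all_AS : S_AS :=
  Pool.Agent.D0H98.PS.as (Pool.Agent.D0H98.PS.mom t_PAIR (t_GROW t_PAIR)) t_DET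

theorem all_MS : S_MS :=
  t_MS Pool.Agent.D0H98.PS.fub (Pool.Agent.D0H98.PS.mom t_PAIR (t_GROW t_PAIR))

/-! ### The shift -/

/-- the weights shifted by `d` -/
noncomputable def shw (d : ℕ) (w : ℕ → ℝ) : ℕ → ℝ := fun m => if m < d then 0 else w (m - d)

lemma shw_le (d : ℕ) (w : ℕ → ℝ) (hw : ∀ n, |w n| ≤ 1) (n : ℕ) : |shw d w n| ≤ 1 := by
  unfold shw
  split_ifs
  · simp
  · exact hw _

lemma sum_shw (d N : ℕ) (w g : ℕ → ℝ) :
    ∑ n ∈ range (d + N), shw d w n * g n = ∑ n ∈ range N, w n * g (n + d) := by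
  rw [sum_range_add]
  have h1 : ∑ n ∈ range d, shw d w n * g n = 0 := by
    refine sum_eq_zero fun n hn => ?_
    unfold shw
    rw [if_pos (mem_range.1 hn), zero_mul]
  rw [h1, zero_add]
  refine sum_congr rfl fun n _ => ?_
  unfold shw
  rw [if_neg (by omega), Nat.add_sub_cancel_left, add_comm d n]

lemma shift_tendsto (d : ℕ) (w g : ℕ → ℝ)
    (h : Tendsto (fun N : ℕ => (∑ n ∈ range N, shw d w n * g n) / (N : ℝ)) atTop (nhds 0)) :
    Tendsto (fun N : ℕ => (∑ n ∈ range N, w n * g (n + d)) / (N : ℝ)) atTop (nhds 0) := by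
  have h1 := (tendsto_add_atTop_iff_nat d).2 h
  have h2 : Tendsto (fun N : ℕ => 1 + (d : ℝ) / (N : ℝ)) atTop (nhds (1 + 0)) :=
    tendsto_const_nhds.add (tendsto_const_div_atTop_nhds_zero_nat _)
  have h3 := h1.mul h2
  rw [zero_mul] at h3
  refine h3.congr' ?_
  filter_upwards [eventually_gt_atTop 0] with N hN
  have hN' : (0 : ℝ) < N := by exact_mod_cast hN
  have e := sum_shw d N w g
  rw [add_comm d N] at e
  rw [e]
  push_cast
  field_simp

/-! ### Characters -/

/-- the indicator of a pattern -/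
lemma pattern {L : ℕ} (v e : Fin L → ZMod 2) :
    (if ∀ i, v i = e i then (1 : ℝ) else 0) =
      ∑ s : Fin L → ZMod 2, sg (∑ i, s i * e i) * sg (∑ i, s i * v i) / 2 ^ L := by
  have h := Finset.prod_univ_sum (fun _ : Fin L => (univ : Finset (ZMod 2)))
    (fun i z => sg (z * e i) * sg (z * v i) / 2)
  rw [Fintype.piFinset_univ] at h
  have h1 : ∀ s : Fin L → ZMod 2, ∏ i, (sg (s i * e i) * sg (s i * v i) / 2) =
      sg (∑ i, s i * e i) * sg (∑ i, s i * v i) / 2 ^ L := by
    intro s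
    rw [prod_div_distrib, prod_mul_distrib, sg_sum, sg_sum]
    simp
  rw [← sum_congr rfl fun s _ => h1 s, ← h]
  have h2 : ∀ i, ∑ z, sg (z * e i) * sg (z * v i) / 2 = if v i = e i then (1 : ℝ) else 0 := by
    intro i
    rw [sum_zmod2]
    rcases zmod2 (v i) with h3 | h3 <;> rcases zmod2 (e i) with h4 | h4 <;> rw [h3, h4] <;>
      simp [sg_zero, sg_one] <;> norm_num
  rw [prod_congr rfl fun i _ => h2 i]
  by_cases h5 : ∀ i, v i = e i
  · rw [if_pos h5]
    exact (prod_eq_one fun i _ => if_pos (h5 i)).symm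
  · rw [if_neg h5]
    obtain ⟨i, hi⟩ := not_forall.1 h5
    exact (prod_eq_zero (mem_univ i) (if_neg hi)).symm

/-- the residue class `r` modulo `M` has the density `1/M` -/
lemma class_density (M r : ℕ) (hM : 0 < M) :
    Tendsto (fun N : ℕ => (((range N).filter (fun n => n ≡ r [MOD M])).card : ℝ) / (N : ℝ))
      atTop (nhds (1 / M)) := by
  have hM' : (0 : ℝ) < M := by exact_mod_cast hM
  have key : ∀ N : ℕ, |(((range N).filter (fun n => n ≡ r [MOD M])).card : ℝ) - N / M| ≤ 1 := by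
    intro N
    have h1 := Nat.count_modEq_card N hM r
    rw [Nat.count_eq_card_filter_range] at h1
    have h2 : ((((range N).filter (fun n => n ≡ r [MOD M])).card : ℕ) : ℝ) =
        ((N / M : ℕ) : ℝ) + (if r % M < N % M then 1 else 0) := by
      rw [h1]
      push_cast
      rfl
    rw [h2]
    have h3 : (N : ℝ) = M * ((N / M : ℕ) : ℝ) + ((N % M : ℕ) : ℝ) := by
      exact_mod_cast (Nat.div_add_mod N M).symm
    have h4 : ((N % M : ℕ) : ℝ) < M := by exact_mod_cast Nat.mod_lt N hM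
    have h5 : (0 : ℝ) ≤ ((N % M : ℕ) : ℝ) := by positivity
    have h6 : (N : ℝ) / M = ((N / M : ℕ) : ℝ) + ((N % M : ℕ) : ℝ) / M := by
      conv_lhs => rw [h3]
      field_simp
    have h7 : ((N % M : ℕ) : ℝ) / M ≤ 1 := by
      rw [div_le_one hM']; exact h4.le
    have h8 : (0 : ℝ) ≤ ((N % M : ℕ) : ℝ) / M := by positivity
    rw [h6, abs_le]
    split_ifs <;> constructor <;> linarith
  have h1 : Tendsto (fun N : ℕ => (((range N).filter (fun n => n ≡ r [MOD M])).card : ℝ) / (N : ℝ)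
      - 1 / M) atTop (nhds 0) := by
    refine squeeze_zero_norm' ?_ (tendsto_const_div_atTop_nhds_zero_nat (1 : ℝ))
    filter_upwards [eventually_gt_atTop 0] with N hN
    have hN' : (0 : ℝ) < N := by exact_mod_cast hN
    have e : (((range N).filter (fun n => n ≡ r [MOD M])).card : ℝ) / (N : ℝ) - 1 / M =
        ((((range N).filter (fun n => n ≡ r [MOD M])).card : ℝ) - N / M) / N := by
      field_simp
    rw [e, Real.norm_eq_abs, abs_div, abs_of_pos hN']
    gcongr
    exact key N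
  simpa using h1.add_const (1 / (M : ℝ))

/-- **Patterns from characters.** -/
lemma pattern_density (h : ℕ → ZMod 2) (L M r : ℕ) (hM : 0 < M)
    (hs : ∀ s : Fin L → ZMod 2, s ≠ 0 → Tendsto (fun N : ℕ =>
      (∑ n ∈ range N, (if n ≡ r [MOD M] then (1 : ℝ) else 0) * sg (∑ i : Fin L, s i * h (n + i))) /
        (N : ℝ)) atTop (nhds 0)) (e : Fin L → ZMod 2) :
    Tendsto (fun N : ℕ => (((range N).filter (fun n => n ≡ r [MOD M] ∧
      ∀ i : Fin L, h (n + i) = e i)).card : ℝ) / (N : ℝ)) atTop (nhds (1 / (M * 2 ^ L))) := by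
  have e1 : ∀ N : ℕ, (((range N).filter (fun n => n ≡ r [MOD M] ∧
      ∀ i : Fin L, h (n + i) = e i)).card : ℝ) / (N : ℝ) =
      ∑ s : Fin L → ZMod 2, sg (∑ i, s i * e i) / 2 ^ L * ((∑ n ∈ range N,
        (if n ≡ r [MOD M] then (1 : ℝ) else 0) * sg (∑ i : Fin L, s i * h (n + i))) / (N : ℝ)) := by
    intro N
    rw [card_filter]
    push_cast
    have e2 : ∀ n, (if n ≡ r [MOD M] ∧ ∀ i : Fin L, h (n + i) = e i then (1 : ℝ) else 0) =
        ∑ s : Fin L → ZMod 2, sg (∑ i, s i * e i) / 2 ^ L *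
          ((if n ≡ r [MOD M] then (1 : ℝ) else 0) * sg (∑ i : Fin L, s i * h (n + i))) := by
      intro n
      have := pattern (fun i : Fin L => h (n + i)) e
      by_cases h1 : n ≡ r [MOD M]
      · simp only [h1, true_and, if_true, one_mul]
        rw [this]
        exact sum_congr rfl fun s _ => by ring
      · simp only [h1, false_and, if_false, zero_mul, mul_zero, sum_const_zero]
    rw [sum_congr rfl fun n _ => e2 n, sum_comm, sum_div]
    refine sum_congr rfl fun s _ => ?_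
    rw [← mul_sum, mul_div_assoc]
  have h0 : Tendsto (fun N : ℕ => (∑ n ∈ range N, (if n ≡ r [MOD M] then (1 : ℝ) else 0) *
      sg (∑ i : Fin L, (0 : Fin L → ZMod 2) i * h (n + i))) / (N : ℝ)) atTop (nhds (1 / M)) := by
    refine (class_density M r hM).congr fun N => ?_
    congr 1
    rw [card_filter]
    push_cast
    refine sum_congr rfl fun n _ => ?_
    simp [sg_zero]
  have h2 : Tendsto (fun N : ℕ => ∑ s : Fin L → ZMod 2, sg (∑ i, s i * e i) / 2 ^ L *
      ((∑ n ∈ range N, (if n ≡ r [MOD M] then (1 : ℝ) else 0) *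
        sg (∑ i : Fin L, s i * h (n + i))) / (N : ℝ))) atTop
      (nhds (∑ s : Fin L → ZMod 2, sg (∑ i, s i * e i) / 2 ^ L *
        (if s = 0 then 1 / (M : ℝ) else 0))) := by
    refine tendsto_finsetSum _ fun s _ => ?_
    refine Tendsto.const_mul _ ?_
    by_cases h3 : s = 0
    · rw [if_pos h3, h3]
      exact h0
    · rw [if_neg h3]
      exact hs s h3
  have h4 : ∑ s : Fin L → ZMod 2, sg (∑ i, s i * e i) / 2 ^ L *
      (if s = 0 then 1 / (M : ℝ) else 0) = 1 / (M * 2 ^ L) := by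
    simp only [mul_ite, mul_zero]
    rw [sum_ite_eq' univ (0 : Fin L → ZMod 2), if_pos (mem_univ _)]
    simp only [Pi.zero_apply, zero_mul, sum_const_zero, sg_zero]
    have : (0 : ℝ) < M := by exact_mod_cast hM
    field_simp
  rw [h4] at h2
  exact h2.congr fun N => (e1 N).symm

/-! ### The patterns of `conv f` are given by `conv g` -/

lemma conv_coeff (f : ℕ → ZMod 2) (n : ℕ) (u : ℕ → ZMod 2) :
    conv f n u = PowerSeries.coeff n (PowerSeries.mk f *
      PowerSeries.mk (fun m => (pA {a | u a = 1} m : ZMod 2))) := by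
  rw [PowerSeries.coeff_mul]
  unfold conv
  rw [Finset.Nat.sum_antidiagonal_eq_sum_range_succ
    (fun i j => PowerSeries.coeff i (PowerSeries.mk f) *
      PowerSeries.coeff j (PowerSeries.mk (fun m => (pA {a | u a = 1} m : ZMod 2)))) n]
  simp only [PowerSeries.coeff_mk]

lemma char_conv (f : ℕ → ZMod 2) (hf : f 0 = 1) {L : ℕ} (s : Fin L → ZMod 2) (hs : s ≠ 0) :
    ∃ (g : ℕ → ZMod 2) (d : ℕ), g 0 = 1 ∧ ∀ n u, ∑ i : Fin L, s i * conv f (n + i) u =
      conv g (n + d) u := by
  obtain ⟨d, hd, hmax⟩ : ∃ d : Fin L, s d = 1 ∧ ∀ i, s i ≠ 0 → i ≤ d := by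
    have hne : (univ.filter (fun i => s i ≠ 0)).Nonempty := by
      obtain ⟨i, hi⟩ := Function.ne_iff.1 hs
      exact ⟨i, mem_filter.2 ⟨mem_univ _, hi⟩⟩
    obtain ⟨m, hm, hm2⟩ : ∃ m : Fin L, s m ≠ 0 ∧ ∀ i, s i ≠ 0 → i ≤ m :=
      ⟨(univ.filter (fun i => s i ≠ 0)).max' hne, (mem_filter.1 (Finset.max'_mem _ hne)).2,
        fun i hi => Finset.le_max' (univ.filter (fun i => s i ≠ 0)) i
          (mem_filter.2 ⟨mem_univ _, hi⟩)⟩
    refine ⟨m, ?_, hm2⟩
    rcases zmod2 (s m) with h | h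
    · exact absurd h hm
    · exact h
  set R : PowerSeries (ZMod 2) := ∑ i : Fin L, PowerSeries.C (s i) *
    PowerSeries.X ^ ((d : ℕ) - i) with hR
  refine ⟨fun n => PowerSeries.coeff n (R * PowerSeries.mk f), d, ?_, ?_⟩
  · show PowerSeries.coeff 0 (R * PowerSeries.mk f) = 1
    rw [PowerSeries.coeff_zero_eq_constantCoeff_apply, map_mul, hR, map_sum]
    have h1 : PowerSeries.constantCoeff (PowerSeries.mk f) = f 0 := by
      rw [← PowerSeries.coeff_zero_eq_constantCoeff_apply, PowerSeries.coeff_mk]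
    rw [h1, hf, mul_one]
    rw [sum_eq_single d]
    · simp [hd]
    · intro i _ hi
      by_cases h2 : s i = 0
      · simp [h2]
      · have h3 := hmax i h2
        have h4 : (i : ℕ) < d := by
          have := lt_of_le_of_ne h3 hi
          exact_mod_cast this
        have h5 : (d : ℕ) - i ≠ 0 := by omega
        simp [h5]
    · intro h; exact absurd (mem_univ _) h
  · intro n u
    set H := PowerSeries.mk f * PowerSeries.mk (fun m => (pA {a | u a = 1} m : ZMod 2)) with hH
    rw [conv_coeff]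
    have e1 : (PowerSeries.mk fun n => PowerSeries.coeff n (R * PowerSeries.mk f)) =
        R * PowerSeries.mk f := by
      ext n; rw [PowerSeries.coeff_mk]
    rw [e1, mul_assoc, ← hH, hR, sum_mul, map_sum]
    refine sum_congr rfl fun i _ => ?_
    rw [conv_coeff, ← hH]
    by_cases h2 : s i = 0
    · simp [h2]
    · have h3 := hmax i h2
      have h4 : (i : ℕ) ≤ d := by exact_mod_cast h3
      rw [mul_assoc, PowerSeries.coeff_C_mul]
      congr 1
      rw [show n + (d : ℕ) = (n + i) + ((d : ℕ) - i) by omega, PowerSeries.coeff_X_pow_mul]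

end Pool.Agent.D0H10.PS
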