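import Pool.Agent.D0H10.PS.Stm

/-! # Finite expectations over independent bits -/

set_option autoImplicit false

open scoped Classical

namespace Pool.Agent.D0H10.PS

open Finset

lemma zmod2 (z : ZMod 2) : z = 0 ∨ z = 1 := by
  revert z; decide

lemma sg_zero : sg 0 = 1 := by simp [sg]

lemma sg_one : sg 1 = -1 := by
  unfold sg
  rw [if_neg (by decide)]

lemma sg_add (a b : ZMod 2) : sg (a + b) = sg a * sg b := by
  rcases zmod2 a with rfl | rfl <;> rcases zmod2 b with rfl | rfl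
  · simp [sg_zero]
  · simp [sg_zero]
  · simp [sg_zero]
  · rw [show (1 : ZMod 2) + 1 = 0 from by decide, sg_zero, sg_one]; norm_num

lemma sg_sum {ι : Type} (s : Finset ι) (f : ι → ZMod 2) : sg (∑ i ∈ s, f i) = ∏ i ∈ s, sg (f i) := by
  induction s using Finset.induction_on with
  | empty => simp [sg_zero]
  | insert a s ha ih => rw [sum_insert ha, prod_insert ha, sg_add, ih]

lemma abs_sg (a : ZMod 2) : |sg a| = 1 := by
  rcases zmod2 a with rfl | rfl
  · simp [sg_zero]
  · simp [sg_one]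

lemma sg_sq (a : ZMod 2) : sg a * sg a = 1 := by
  rcases zmod2 a with rfl | rfl
  · simp [sg_zero]
  · simp [sg_one]

section

variable {ι : Type} [Fintype ι] {p : ι → ℝ}

lemma Ex_add (φ ψ : (ι → ZMod 2) → ℝ) : Ex p (fun v => φ v + ψ v) = Ex p φ + Ex p ψ := by
  unfold Ex
  rw [← sum_add_distrib]
  exact sum_congr rfl fun v _ => by ring

lemma Ex_mul (a : ℝ) (φ : (ι → ZMod 2) → ℝ) : Ex p (fun v => a * φ v) = a * Ex p φ := by
  unfold Ex
  rw [mul_sum]
  exact sum_congr rfl fun v _ => by ring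

lemma Ex_sum {κ : Type} (s : Finset κ) (φ : κ → (ι → ZMod 2) → ℝ) :
    Ex p (fun v => ∑ k ∈ s, φ k v) = ∑ k ∈ s, Ex p (φ k) := by
  unfold Ex
  rw [sum_comm]
  exact sum_congr rfl fun v _ => by rw [mul_sum]

lemma sum_zmod2 (g : ZMod 2 → ℝ) : ∑ z, g z = g 0 + g 1 := by
  have : (univ : Finset (ZMod 2)) = {0, 1} := by decide
  rw [this, sum_insert (by decide), sum_singleton]

lemma Ex_prod (g : ι → ZMod 2 → ℝ) :
    Ex p (fun v => ∏ i, g i (v i)) = ∏ i, ((1 - p i) * g i 0 + p i * g i 1) := by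
  have h := Finset.prod_univ_sum (fun _ : ι => (univ : Finset (ZMod 2)))
    (fun i z => (if z = 1 then p i else 1 - p i) * g i z)
  rw [Fintype.piFinset_univ] at h
  unfold Ex wt
  simp_rw [← prod_mul_distrib]
  rw [← h]
  refine prod_congr rfl fun i _ => ?_
  rw [sum_zmod2, if_neg (by decide), if_pos rfl]

lemma Ex_one : Ex p (fun _ => 1) = 1 := by
  have h := Ex_prod (p := p) (fun _ _ => 1)
  simpa using h

lemma Ex_const (a : ℝ) : Ex p (fun _ => a) = a := by
  have h := Ex_mul (p := p) a (fun _ => 1)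
  rw [Ex_one, mul_one] at h
  simpa using h

lemma wt_nonneg (hp : ∀ i, 0 ≤ p i ∧ p i ≤ 1) (v : ι → ZMod 2) : 0 ≤ wt p v := by
  unfold wt
  refine prod_nonneg fun i _ => ?_
  split_ifs
  · exact (hp i).1
  · linarith [(hp i).2]

lemma Ex_mono (hp : ∀ i, 0 ≤ p i ∧ p i ≤ 1) {φ ψ : (ι → ZMod 2) → ℝ} (h : ∀ v, φ v ≤ ψ v) :
    Ex p φ ≤ Ex p ψ := by
  unfold Ex
  exact sum_le_sum fun v _ => mul_le_mul_of_nonneg_left (h v) (wt_nonneg hp v)

lemma Ex_nonneg (hp : ∀ i, 0 ≤ p i ∧ p i ≤ 1) {φ : (ι → ZMod 2) → ℝ} (h : ∀ v, 0 ≤ φ v) :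
    0 ≤ Ex p φ := by
  unfold Ex
  exact sum_nonneg fun v _ => mul_nonneg (wt_nonneg hp v) (h v)

/-- the expectation of the sign of an affine form -/
lemma Ex_sg (b : ZMod 2) (s : ι → ZMod 2) :
    Ex p (fun v => sg (b + ∑ i, s i * v i)) = sg b * ∏ i, (if s i = 1 then 1 - 2 * p i else 1) := by
  have h : ∀ v : ι → ZMod 2, sg (b + ∑ i, s i * v i) = sg b * ∏ i, sg (s i * v i) := by
    intro v
    rw [sg_add, sg_sum]
  simp_rw [h]
  rw [Ex_mul, Ex_prod (fun i z => sg (s i * z))]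
  congr 1
  refine prod_congr rfl fun i _ => ?_
  rcases zmod2 (s i) with h0 | h0
  · rw [h0, zero_mul, zero_mul, sg_zero, if_neg (by decide)]; ring
  · rw [h0, mul_zero, mul_one, sg_zero, sg_one, if_pos rfl]; ring

/-- Chebyshev -/
lemma Ex_cheb (hp : ∀ i, 0 ≤ p i ∧ p i ≤ 1) (φ : (ι → ZMod 2) → ℝ) (B : (ι → ZMod 2) → Prop)
    (a : ℝ) (ha : 0 < a) (h : ∀ v, B v → a ≤ |φ v|) :
    Ex p (fun v => if B v then 1 else 0) ≤ Ex p (fun v => φ v ^ 2) / a ^ 2 := by
  rw [le_div_iff₀ (by positivity), mul_comm, ← Ex_mul]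
  refine Ex_mono hp fun v => ?_
  split_ifs with hB
  · have := h v hB
    rw [mul_one, ← sq_abs (φ v)]
    exact pow_le_pow_left₀ ha.le this 2
  · rw [mul_zero]
    positivity

/-- XOR decomposition -/
lemma Ex_xor (s t : ι → ℝ) (hp : ∀ i, p i = s i * (1 - t i) + t i * (1 - s i))
    (φ : (ι → ZMod 2) → ℝ) :
    Ex p φ = Ex s (fun U => Ex t (fun V => φ (U + V))) := by
  have key : ∀ w : ι → ZMod 2, wt p w = ∑ U : ι → ZMod 2, wt s U * wt t (w - U) := by
    intro w
    have h := Finset.prod_univ_sum (fun _ : ι => (univ : Finset (ZMod 2)))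
      (fun i z => (if z = 1 then s i else 1 - s i) * (if w i - z = 1 then t i else 1 - t i))
    rw [Fintype.piFinset_univ] at h
    unfold wt
    simp_rw [← prod_mul_distrib]
    rw [show (∑ U : ι → ZMod 2, ∏ i, ((if U i = 1 then s i else 1 - s i) *
      if (w - U) i = 1 then t i else 1 - t i)) = ∑ U : ι → ZMod 2, ∏ i,
        ((if U i = 1 then s i else 1 - s i) * if w i - U i = 1 then t i else 1 - t i) from rfl, ← h]
    refine prod_congr rfl fun i _ => ?_
    rw [sum_zmod2, if_neg (by decide : ¬ (0 : ZMod 2) = 1), if_pos rfl, sub_zero, hp i]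
    rcases zmod2 (w i) with h0 | h0
    · rw [h0, if_neg (by decide), if_neg (by decide), if_pos (by decide)]; ring
    · rw [h0, if_pos rfl, if_pos rfl, if_neg (by decide)]; ring
  unfold Ex
  simp_rw [mul_sum]
  rw [sum_comm]
  calc ∑ w, wt p w * φ w = ∑ w, ∑ U, wt s U * (wt t (w - U) * φ w) := by
        refine sum_congr rfl fun w _ => ?_
        rw [key w, sum_mul]
        exact sum_congr rfl fun U _ => by ring
    _ = ∑ U, ∑ w, wt s U * (wt t (w - U) * φ w) := sum_comm
    _ = ∑ U, ∑ V, wt s U * (wt t V * φ (U + V)) := by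
        refine sum_congr rfl fun U _ => ?_
        refine (Equiv.sum_comp (Equiv.addLeft U)
          (fun w => wt s U * (wt t (w - U) * φ w))).symm.trans ?_
        refine sum_congr rfl fun V _ => ?_
        simp [Equiv.coe_addLeft]
    _ = _ := sum_comm

end

/-- the support of the affine form at `n` -/
noncomputable def co {x : ℕ} (c : ℕ → ZMod 2) (n : ℕ) (i : Fin x) : ZMod 2 :=
  if (i : ℕ) ≤ n then c (n - i) else 0

lemma lin_eq {x : ℕ} (c b : ℕ → ZMod 2) (v : Fin x → ZMod 2) (n : ℕ) :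
    lin c b v n = b n + ∑ i : Fin x, co c n i * v i := by
  unfold lin co
  congr 1
  refine sum_congr rfl fun i _ => ?_
  split_ifs
  · rfl
  · rw [zero_mul]

lemma lin_add {x : ℕ} (c b : ℕ → ZMod 2) (u v : Fin x → ZMod 2) (n : ℕ) :
    lin c b (u + v) n = lin c (fun n => lin c b u n) v n := by
  rw [lin_eq, lin_eq, lin_eq, add_assoc, ← sum_add_distrib]
  congr 1
  refine sum_congr rfl fun i _ => ?_
  rw [Pi.add_apply, mul_add]

lemma card_co {x : ℕ} (c : ℕ → ZMod 2) {n : ℕ} (hn : n < x) :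
    (univ.filter (fun i : Fin x => co c n i = 1)).card = cnt c (n + 1) := by
  unfold cnt
  refine card_bij' (fun i _ => n - (i : ℕ)) (fun j hj => ⟨n - j, by omega⟩) ?_ ?_ ?_ ?_
  · intro i hi
    rw [mem_filter] at hi ⊢
    unfold co at hi
    split_ifs at hi with h
    · exact ⟨mem_range.2 (by omega), hi.2⟩
    · exact absurd hi.2 (by decide)
  · intro j hj
    rw [mem_filter, mem_range] at hj
    rw [mem_filter]
    refine ⟨mem_univ _, ?_⟩
    unfold co
    rw [if_pos (by simp)]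
    have : n - (n - j) = j := by omega
    simpa [this] using hj.2
  · intro i hi
    rw [mem_filter] at hi
    unfold co at hi
    split_ifs at hi with h
    · apply Fin.ext
      simp only
      omega
    · exact absurd hi.2 (by decide)
  · intro j hj
    rw [mem_filter, mem_range] at hj
    simp only
    omega

lemma cnt_mono (c : ℕ → ZMod 2) {a b : ℕ} (h : a ≤ b) : cnt c a ≤ cnt c b := by
  unfold cnt
  exact card_le_card (filter_subset_filter _ (range_subset_range.2 h))

lemma cnt_pos {c : ℕ → ZMod 2} (h0 : c 0 = 1) {X : ℕ} (hX : 0 < X) : 0 < cnt c X := by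
  unfold cnt
  exact card_pos.2 ⟨0, mem_filter.2 ⟨mem_range.2 hX, h0⟩⟩

lemma cnt_le (c : ℕ → ZMod 2) (X : ℕ) : cnt c X ≤ X := by
  unfold cnt
  exact (card_filter_le _ _).trans (by simp)

end Pool.Agent.D0H10.PS
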