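import Pool.Agent.D0H10.PS.Basic

/-! # DET: averaging over the dyadic blocks -/

set_option autoImplicit false

open scoped Classical

namespace Pool.Agent.D0H10.PS

open Finset Filter

lemma abs_sum_le {g : ℕ → ℝ} (hg : ∀ n, |g n| ≤ 1) (a b : ℕ) :
    |∑ n ∈ Ico a b, g n| ≤ ((b - a : ℕ) : ℝ) := by
  refine (abs_sum_le_sum_abs _ _).trans ?_
  refine (sum_le_card_nsmul _ _ 1 fun n _ => hg n).trans ?_
  simp

lemma sum_split (g : ℕ → ℝ) {a b c : ℕ} (h1 : a ≤ b) (h2 : b ≤ c) :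
    ∑ n ∈ Ico a c, g n = ∑ n ∈ Ico a b, g n + ∑ n ∈ Ico b c, g n :=
  (sum_Ico_consecutive g h1 h2).symm

theorem t_DET : S_DET := by
  intro g hg hZ
  rw [Metric.tendsto_atTop]
  intro ε hε
  -- choose `s`
  obtain ⟨s, hs1, hs⟩ : ∃ s : ℕ, 1 ≤ s ∧ (1 / 2 : ℝ) ^ s < ε / 16 := by
    obtain ⟨s, hs⟩ := exists_pow_lt_of_lt_one (show (0 : ℝ) < ε / 16 by positivity)
      (show (1 / 2 : ℝ) < 1 by norm_num)
    refine ⟨s + 1, by omega, lt_of_le_of_lt ?_ hs⟩
    rw [pow_succ]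
    have : (0 : ℝ) < (1 / 2) ^ s := by positivity
    linarith
  set Z : ℕ → ℕ → ℝ := fun j k => ∑ n ∈ Ico (2 ^ k + 2 ^ (k - s)) (2 ^ k + j * 2 ^ (k - s)), g n with hZd
  -- all the grid sums are small from `k₀` on
  have hall : ∀ᶠ k in atTop, ∀ j ∈ range (2 ^ s + 1), |Z j k| ≤ ε / 16 * 2 ^ k := by
    rw [eventually_all_finset]
    intro j hj
    rw [mem_range] at hj
    have h1 := hZ s j hs1 (by omega)
    have h2 := (Metric.tendsto_atTop.1 h1) (ε / 16) (by positivity)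
    obtain ⟨k0, hk0⟩ := h2
    filter_upwards [eventually_ge_atTop k0] with k hk
    have h3 := hk0 k hk
    rw [Real.dist_0_eq_abs, abs_div, abs_of_pos (show (0 : ℝ) < 2 ^ k by positivity),
      div_lt_iff₀ (by positivity)] at h3
    exact h3.le
  obtain ⟨k0, hk0⟩ := eventually_atTop.1 hall
  set k1 := max k0 s with hk1
  -- prefix sums within a block
  have hblock : ∀ k, k1 ≤ k → ∀ N, 2 ^ k ≤ N → N ≤ 2 ^ (k + 1) →
      |∑ n ∈ Ico (2 ^ k) N, g n| ≤ 3 * (ε / 16) * 2 ^ k := by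
    intro k hk N hN1 hN2
    have hks : s ≤ k := le_trans (le_max_right _ _) hk
    have hcell : 2 ^ s * 2 ^ (k - s) = 2 ^ k := by rw [← pow_add]; congr 1; omega
    have hcp : 0 < 2 ^ (k - s) := by positivity
    set L := 2 ^ (k - s) with hL
    have hLr : (L : ℝ) ≤ ε / 16 * 2 ^ k := by
      have h1 : (2 : ℝ) ^ s * L = 2 ^ k := by exact_mod_cast hcell
      have h2 : (1 / 2 : ℝ) ^ s * 2 ^ s = 1 := by rw [← mul_pow]; norm_num
      calc (L : ℝ) = (1 / 2 : ℝ) ^ s * (2 ^ s * L) := by rw [← mul_assoc, h2, one_mul]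
        _ = (1 / 2 : ℝ) ^ s * 2 ^ k := by rw [h1]
        _ ≤ ε / 16 * 2 ^ k := by gcongr
    by_cases hsm : N < 2 ^ k + L
    · refine (abs_sum_le hg _ _).trans ?_
      have h1 : ((N - 2 ^ k : ℕ) : ℝ) ≤ L := by exact_mod_cast (by omega : N - 2 ^ k ≤ L)
      have : 0 < ε / 16 * 2 ^ k := by positivity
      linarith
    · push Not at hsm
      set j := (N - 2 ^ k) / L with hj
      have hj1 : 1 ≤ j := by
        rw [hj]
        exact (Nat.one_le_div_iff hcp).2 (by omega)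
      have hjs : j ≤ 2 ^ s := by
        rw [hj]
        apply Nat.div_le_of_le_mul
        rw [mul_comm, hcell]
        rw [pow_succ] at hN2
        omega
      have hjL : j * L ≤ N - 2 ^ k := Nat.div_mul_le_self _ _
      have hjL2 : N - 2 ^ k < j * L + L := by
        have := Nat.lt_div_mul_add (a := N - 2 ^ k) hcp
        rw [← hj] at this
        exact this
      have hLj : L ≤ j * L := Nat.le_mul_of_pos_left _ hj1
      rw [sum_split g (show 2 ^ k ≤ 2 ^ k + L by omega) hsm,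
        sum_split g (show 2 ^ k + L ≤ 2 ^ k + j * L by omega) (show 2 ^ k + j * L ≤ N by omega)]
      have e1 := abs_sum_le hg (2 ^ k) (2 ^ k + L)
      have e2 := abs_sum_le hg (2 ^ k + j * L) N
      have e3 := hk0 k (le_trans (le_max_left _ _) hk) j (mem_range.2 (by omega))
      have e4 : ((2 ^ k + L - 2 ^ k : ℕ) : ℝ) ≤ L := by exact_mod_cast (by omega : 2 ^ k + L - 2 ^ k ≤ L)
      have e5 : ((N - (2 ^ k + j * L) : ℕ) : ℝ) ≤ L := by
        exact_mod_cast (by omega : N - (2 ^ k + j * L) ≤ L)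
      have e6 : Z j k = ∑ n ∈ Ico (2 ^ k + L) (2 ^ k + j * L), g n := rfl
      rw [e6] at e3
      have e7 := abs_add_le (∑ n ∈ Ico (2 ^ k) (2 ^ k + L), g n)
        (∑ n ∈ Ico (2 ^ k + L) (2 ^ k + j * L), g n + ∑ n ∈ Ico (2 ^ k + j * L) N, g n)
      have e8 := abs_add_le (∑ n ∈ Ico (2 ^ k + L) (2 ^ k + j * L), g n)
        (∑ n ∈ Ico (2 ^ k + j * L) N, g n)
      linarith
  -- the sums up to powers of two
  have hpow : ∀ k, k1 ≤ k → |∑ n ∈ range (2 ^ k), g n| ≤ 2 ^ k1 + 3 * (ε / 16) * 2 ^ k := by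
    intro k hk
    induction k, hk using Nat.le_induction with
    | base =>
      have h1 := abs_sum_le hg 0 (2 ^ k1)
      rw [← range_eq_Ico] at h1
      have h2 : ((2 ^ k1 - 0 : ℕ) : ℝ) = 2 ^ k1 := by push_cast; simp
      rw [h2] at h1
      have : 0 < 3 * (ε / 16) * 2 ^ k1 := by positivity
      linarith
    | succ k hk ih =>
      have h1 := hblock k hk (2 ^ (k + 1)) (Nat.pow_le_pow_right (by norm_num) (by omega)) le_rfl
      rw [← sum_range_add_sum_Ico g (show 2 ^ k ≤ 2 ^ (k + 1) from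
        Nat.pow_le_pow_right (by norm_num) (by omega))]
      have h2 := abs_add_le (∑ n ∈ range (2 ^ k), g n) (∑ n ∈ Ico (2 ^ k) (2 ^ (k + 1)), g n)
      have h3 : (2 : ℝ) ^ (k + 1) = 2 * 2 ^ k := by ring
      rw [h3]
      linarith
  -- conclusion
  obtain ⟨N0, hN0⟩ : ∃ N0 : ℕ, (2 : ℝ) ^ k1 * (16 / ε) ≤ N0 := exists_nat_ge _
  refine ⟨max N0 (2 ^ k1), fun N hN => ?_⟩
  have hNk : 2 ^ k1 ≤ N := le_trans (le_max_right _ _) hN
  have hN1 : 0 < N := lt_of_lt_of_le (by positivity) hNk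
  set k := Nat.log 2 N with hk
  have hk2 : 2 ^ k ≤ N := Nat.pow_log_le_self 2 hN1.ne'
  have hk3 : N < 2 ^ (k + 1) := Nat.lt_pow_succ_log_self (by norm_num) N
  have hk4 : k1 ≤ k := by
    rw [hk]
    exact (Nat.le_log_iff_pow_le (by norm_num) hN1.ne').2 hNk
  have hNR : (0 : ℝ) < N := by exact_mod_cast hN1
  rw [Real.dist_0_eq_abs, abs_div, abs_of_pos hNR, div_lt_iff₀ hNR]
  have h1 := hblock k hk4 N hk2 hk3.le
  have h2 := hpow k hk4
  rw [← sum_range_add_sum_Ico g hk2]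
  have h3 := abs_add_le (∑ n ∈ range (2 ^ k), g n) (∑ n ∈ Ico (2 ^ k) N, g n)
  have h4 : (2 : ℝ) ^ k ≤ N := by exact_mod_cast hk2
  have h5 : (2 : ℝ) ^ k1 ≤ ε / 16 * N := by
    have h6 : (N0 : ℝ) ≤ N := by exact_mod_cast le_trans (le_max_left _ _) hN
    have h7 : (2 : ℝ) ^ k1 * (16 / ε) ≤ N := hN0.trans h6
    have h8 : (2 : ℝ) ^ k1 * (16 / ε) * (ε / 16) = 2 ^ k1 := by field_simp
    calc (2 : ℝ) ^ k1 = (2 : ℝ) ^ k1 * (16 / ε) * (ε / 16) := h8.symm
      _ ≤ N * (ε / 16) := by gcongr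
      _ = ε / 16 * N := by ring
  have h9 : 3 * (ε / 16) * 2 ^ k ≤ 3 * (ε / 16) * N := by gcongr
  nlinarith

end Pool.Agent.D0H10.PS
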