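import Pool.Agent.D0H10.PS.Basic

/-! # GROW: the number of ones grows -/

set_option autoImplicit false

open scoped Classical

namespace Pool.Agent.D0H10.PS

open Finset

section const

variable {x : ℕ} {τ : ℝ}

/-- the sets of the bits on which two forms depend -/
noncomputable def Dn {x : ℕ} (c : ℕ → ZMod 2) (n m : ℕ) : ℕ :=
  (univ.filter (fun i : Fin x => co c n i + co c m i = 1)).card

noncomputable def In {x : ℕ} (c : ℕ → ZMod 2) (n m : ℕ) : ℕ :=
  (univ.filter (fun i : Fin x => co c n i = 1 ∧ co c m i = 1)).card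

lemma prod_card (s : Fin x → ZMod 2) :
    ∏ i, (if s i = 1 then 1 - 2 * τ else 1) = (1 - 2 * τ) ^ (univ.filter (fun i => s i = 1)).card := by
  rw [Finset.prod_ite, prod_const, prod_const_one, mul_one]

lemma Ex_s (c b : ℕ → ZMod 2) {n : ℕ} (hn : n < x) :
    Ex (fun _ : Fin x => τ) (fun v => sg (lin c b v n)) = sg (b n) * (1 - 2 * τ) ^ cnt c (n + 1) := by
  simp_rw [lin_eq]
  rw [Ex_sg, prod_card, card_co c hn]

lemma Ex_ss (c b : ℕ → ZMod 2) (n m : ℕ) :
    Ex (fun _ : Fin x => τ) (fun v => sg (lin c b v n) * sg (lin c b v m)) =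
      sg (b n + b m) * (1 - 2 * τ) ^ Dn (x := x) c n m := by
  have h : ∀ v : Fin x → ZMod 2, sg (lin c b v n) * sg (lin c b v m) =
      sg ((b n + b m) + ∑ i : Fin x, (co c n i + co c m i) * v i) := by
    intro v
    rw [← sg_add, lin_eq, lin_eq]
    congr 1
    simp_rw [add_mul]
    rw [sum_add_distrib]
    ring
  simp_rw [h]
  rw [Ex_sg, prod_card]
  rfl

lemma card_split (c : ℕ → ZMod 2) {n m : ℕ} (hn : n < x) (hm : m < x) :
    cnt c (n + 1) + cnt c (m + 1) = Dn (x := x) c n m + 2 * In (x := x) c n m := by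
  rw [← card_co c hn, ← card_co c hm]
  unfold Dn In
  have h1 : ∀ (P : Fin x → Prop) [DecidablePred P], (univ.filter P).card = ∑ i, if P i then 1 else 0 := by
    intro P _
    rw [card_filter]
  rw [h1, h1, h1, h1, ← sum_add_distrib, mul_sum, ← sum_add_distrib]
  refine sum_congr rfl fun i _ => ?_
  rcases zmod2 (co c n i) with h | h <;> rcases zmod2 (co c m i) with h' | h' <;> rw [h, h'] <;> decide

lemma cov_le (c b : ℕ → ZMod 2) {n m : ℕ} (hn : n < x) (hm : m < x) (h0 : 0 ≤ τ) (h1 : τ ≤ 1 / 2) :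
    Ex (fun _ : Fin x => τ) (fun v => sg (lin c b v n) * sg (lin c b v m)) -
      Ex (fun _ : Fin x => τ) (fun v => sg (lin c b v n)) *
      Ex (fun _ : Fin x => τ) (fun v => sg (lin c b v m)) ≤ 4 * τ * In (x := x) c n m := by
  rw [Ex_ss, Ex_s c b hn, Ex_s c b hm, sg_add]
  have e : sg (b n) * (1 - 2 * τ) ^ cnt c (n + 1) * (sg (b m) * (1 - 2 * τ) ^ cnt c (m + 1)) =
      sg (b n) * sg (b m) * ((1 - 2 * τ) ^ Dn (x := x) c n m * (1 - 2 * τ) ^ (2 * In (x := x) c n m)) := by
    rw [← pow_add, ← card_split c hn hm, pow_add]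
    ring
  rw [e, ← mul_sub]
  have hq0 : 0 ≤ 1 - 2 * τ := by linarith
  have hq1 : 1 - 2 * τ ≤ 1 := by linarith
  have h2 : (1 - 2 * τ) ^ Dn (x := x) c n m - (1 - 2 * τ) ^ Dn (x := x) c n m * (1 - 2 * τ) ^ (2 * In (x := x) c n m) =
      (1 - 2 * τ) ^ Dn (x := x) c n m * (1 - (1 - 2 * τ) ^ (2 * In (x := x) c n m)) := by ring
  rw [h2]
  have h3 : 0 ≤ 1 - (1 - 2 * τ) ^ (2 * In (x := x) c n m) := by
    have := pow_le_one₀ (n := 2 * In (x := x) c n m) hq0 hq1
    linarith
  have h4 : (1 - 2 * τ) ^ Dn (x := x) c n m ≤ 1 := pow_le_one₀ hq0 hq1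
  have h5 : 0 ≤ (1 - 2 * τ) ^ Dn (x := x) c n m := pow_nonneg hq0 _
  have h6 : 1 - (1 - 2 * τ) ^ (2 * In (x := x) c n m) ≤ 4 * τ * In (x := x) c n m := by
    have := one_add_mul_le_pow (a := -(2 * τ)) (by linarith) (2 * In (x := x) c n m)
    have e2 : (1 : ℝ) + -(2 * τ) = 1 - 2 * τ := by ring
    rw [e2] at this
    push_cast at this
    linarith
  have h7 : |sg (b n) * sg (b m)| ≤ 1 := by rw [abs_mul, abs_sg, abs_sg]; norm_num
  calc sg (b n) * sg (b m) * ((1 - 2 * τ) ^ Dn (x := x) c n m * (1 - (1 - 2 * τ) ^ (2 * In (x := x) c n m)))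
      ≤ |sg (b n) * sg (b m)| * ((1 - 2 * τ) ^ Dn (x := x) c n m * (1 - (1 - 2 * τ) ^ (2 * In (x := x) c n m))) :=
        mul_le_mul_of_nonneg_right (le_abs_self _) (mul_nonneg h5 h3)
    _ ≤ 1 * ((1 - 2 * τ) ^ Dn (x := x) c n m * (1 - (1 - 2 * τ) ^ (2 * In (x := x) c n m))) :=
        mul_le_mul_of_nonneg_right h7 (mul_nonneg h5 h3)
    _ ≤ 1 * (1 * (1 - (1 - 2 * τ) ^ (2 * In (x := x) c n m))) := by gcongr
    _ ≤ _ := by linarith

lemma sum_In (c : ℕ → ZMod 2) (J : Finset ℕ) :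
    ∑ n ∈ J, ∑ m ∈ J, (In (x := x) c n m : ℝ) =
      ∑ i : Fin x, ((J.filter (fun n => co c n i = 1)).card : ℝ) ^ 2 := by
  have h1 : ∀ n m, (In (x := x) c n m : ℝ) =
      ∑ i : Fin x, (if co c n i = 1 then (1 : ℝ) else 0) * (if co c m i = 1 then 1 else 0) := by
    intro n m
    unfold In
    rw [card_filter]
    push_cast
    refine sum_congr rfl fun i _ => ?_
    by_cases h : co c n i = 1 <;> by_cases h' : co c m i = 1 <;> simp [h, h']
  simp_rw [h1]
  have h2 : ∀ i : Fin x, ((J.filter (fun n => co c n i = 1)).card : ℝ) =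
      ∑ n ∈ J, (if co c n i = 1 then (1 : ℝ) else 0) := by
    intro i
    rw [card_filter]
    push_cast
    rfl
  simp_rw [h2, sq, sum_mul_sum]
  have h3 : ∀ n, ∑ m ∈ J, ∑ i : Fin x, (if co c n i = 1 then (1 : ℝ) else 0) * (if co c m i = 1 then 1 else 0) =
      ∑ i : Fin x, ∑ m ∈ J, (if co c n i = 1 then (1 : ℝ) else 0) * (if co c m i = 1 then 1 else 0) :=
    fun n => sum_comm
  simp_rw [h3]
  exact sum_comm

lemma N_le (c : ℕ → ZMod 2) (J : Finset ℕ) (hJ : ∀ n ∈ J, n < x) (i : Fin x) :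
    (J.filter (fun n => co c n i = 1)).card ≤ cnt c x := by
  unfold cnt
  refine card_le_card_of_injOn (fun n => n - (i : ℕ)) ?_ ?_
  · intro n hn
    rw [mem_coe, mem_filter] at hn
    obtain ⟨h1, h2⟩ := hn
    have h3 := hJ n h1
    unfold co at h2
    split_ifs at h2 with h
    · rw [mem_coe, mem_filter]
      refine ⟨mem_range.2 ?_, h2⟩
      show n - (i : ℕ) < x
      omega
    · exact absurd h2 (by decide)
  · intro n hn m hm hnm
    rw [mem_coe, mem_filter] at hn hm
    have h2 := hn.2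
    have h3 := hm.2
    unfold co at h2 h3
    split_ifs at h2 h3 with h h'
    · simp only at hnm
      omega
    all_goals first | exact absurd h2 (by decide) | exact absurd h3 (by decide)

lemma pow_bound {r g : ℕ} (h0 : 0 ≤ τ) (h1 : τ ≤ 1 / 2) (hr : g ≤ r) (hg : τ * g ≤ 1) :
    (1 - 2 * τ) ^ r ≤ 1 - 2 / 3 * (τ * g) := by
  have hq0 : 0 ≤ 1 - 2 * τ := by linarith
  have hq1 : 1 - 2 * τ ≤ 1 := by linarith
  have h2 : (1 - 2 * τ) ^ r ≤ (1 - 2 * τ) ^ g := pow_le_pow_of_le_one hq0 hq1 hr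
  have h3 : (1 - 2 * τ) ≤ Real.exp (-(2 * τ)) := by
    have := Real.add_one_le_exp (-(2 * τ))
    linarith
  have h4 : (1 - 2 * τ) ^ g ≤ Real.exp (-(2 * (τ * g))) := by
    calc (1 - 2 * τ) ^ g ≤ (Real.exp (-(2 * τ))) ^ g := pow_le_pow_left₀ hq0 h3 g
      _ = Real.exp (-(2 * (τ * g))) := by
        rw [← Real.exp_nat_mul]
        congr 1
        ring
  set u : ℝ := τ * g with hu
  have hu0 : 0 ≤ u := by rw [hu]; positivity
  have h5 : Real.exp (-(2 * u)) ≤ 1 / (1 + 2 * u) := by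
    rw [Real.exp_neg, one_div]
    apply inv_anti₀ (by positivity)
    have := Real.add_one_le_exp (2 * u)
    linarith
  have h6 : 1 / (1 + 2 * u) ≤ 1 - 2 / 3 * u := by
    rw [div_le_iff₀ (by positivity)]
    nlinarith
  linarith

/-- the growth for equal rates `τ = K / (2 y)`, `K = 4 * 10^7` -/
lemma grow_const (y : ℕ) (hy : 0 < y) (c b : ℕ → ZMod 2) (hτ : τ * (2 * y) = 4 * 10 ^ 7)
    (h1 : τ ≤ 1 / 2) (h0c : c 0 = 1) (hg1 : τ * cnt c y ≤ 1) (hG : cnt c (2 * y) ≤ 64 * cnt c y) :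
    Ex (fun _ : Fin (2 * y) => τ) (fun v => if
      (((Ico y (2 * y)).filter (fun n => lin c b v n = 1)).card : ℝ) < 64 * cnt c y then 1 else 0) ≤
      1 / 64 := by
  have hyR : (0 : ℝ) < y := by exact_mod_cast hy
  have hτ0 : 0 < τ := by
    by_contra h
    have : τ * (2 * y) ≤ 0 := mul_nonpos_of_nonpos_of_nonneg (not_lt.1 h) (by positivity)
    rw [hτ] at this
    norm_num at this
  set J := Ico y (2 * y) with hJ
  have hJlt : ∀ n ∈ J, n < 2 * y := fun n hn => (mem_Ico.1 hn).2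
  set g : ℝ := ((cnt c y : ℕ) : ℝ) with hg
  have hgpos : 0 < g := by rw [hg]; exact_mod_cast cnt_pos h0c hy
  set e : ℕ → ℝ := fun n => Ex (fun _ : Fin (2 * y) => τ) (fun v => sg (lin c b v n)) with he
  have hp : ∀ _ : Fin (2 * y), 0 ≤ τ ∧ τ ≤ 1 := fun _ => ⟨hτ0.le, by linarith⟩
  -- the mean
  have hmean : ∑ n ∈ J, e n ≤ y - 4 * 10 ^ 7 * g / 3 := by
    have h2 : ∀ n ∈ J, e n ≤ 1 - 2 / 3 * (τ * g) := by
      intro n hn
      rw [he]
      simp only
      rw [Ex_s c b (hJlt n hn)]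
      have h3 := pow_bound (r := cnt c (n + 1)) (g := cnt c y) hτ0.le h1
        (cnt_mono c (by have := (mem_Ico.1 hn).1; omega)) hg1
      have h4 : 0 ≤ (1 - 2 * τ) ^ cnt c (n + 1) := pow_nonneg (by linarith) _
      calc sg (b n) * (1 - 2 * τ) ^ cnt c (n + 1) ≤ |sg (b n)| * (1 - 2 * τ) ^ cnt c (n + 1) :=
            mul_le_mul_of_nonneg_right (le_abs_self _) h4
        _ = (1 - 2 * τ) ^ cnt c (n + 1) := by rw [abs_sg, one_mul]
        _ ≤ _ := h3
    refine (sum_le_card_nsmul _ _ _ h2).trans ?_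
    rw [nsmul_eq_mul, hJ, Nat.card_Ico]
    have : ((2 * y - y : ℕ) : ℝ) = y := by congr 1; omega
    rw [this]
    have h5 : (y : ℝ) * τ = 2 * 10 ^ 7 := by linarith
    nlinarith
  -- the variance
  have hvar : Ex (fun _ : Fin (2 * y) => τ) (fun v => (∑ n ∈ J, (sg (lin c b v n) - e n)) ^ 2) ≤
      4 * (4 * 10 ^ 7) * (64 * g) ^ 2 := by
    have h2 : ∀ v : Fin (2 * y) → ZMod 2, (∑ n ∈ J, (sg (lin c b v n) - e n)) ^ 2 =
        ∑ n ∈ J, ∑ m ∈ J, (sg (lin c b v n) * sg (lin c b v m) + ((-e n) * sg (lin c b v m) +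
          ((-e m) * sg (lin c b v n) + e n * e m))) := by
      intro v
      rw [sq, sum_mul_sum]
      refine sum_congr rfl fun n _ => sum_congr rfl fun m _ => ?_
      ring
    simp_rw [h2]
    rw [Ex_sum]
    simp_rw [Ex_sum, Ex_add, Ex_mul, Ex_const]
    have h3 : ∀ n ∈ J, ∀ m ∈ J,
        Ex (fun _ : Fin (2 * y) => τ) (fun v => sg (lin c b v n) * sg (lin c b v m)) +
        (-e n * Ex (fun _ : Fin (2 * y) => τ) (fun v => sg (lin c b v m)) +
        (-e m * Ex (fun _ : Fin (2 * y) => τ) (fun v => sg (lin c b v n)) + e n * e m)) ≤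
        4 * τ * In (x := 2 * y) c n m := by
      intro n hn m hm
      have h4 := cov_le (x := 2 * y) c b (hJlt n hn) (hJlt m hm) hτ0.le h1
      have h5 : Ex (fun _ : Fin (2 * y) => τ) (fun v => sg (lin c b v n)) = e n := rfl
      have h6 : Ex (fun _ : Fin (2 * y) => τ) (fun v => sg (lin c b v m)) = e m := rfl
      rw [h5, h6] at h4 ⊢
      linarith
    calc _ ≤ ∑ n ∈ J, ∑ m ∈ J, 4 * τ * (In (x := 2 * y) c n m : ℝ) :=
          sum_le_sum fun n hn => sum_le_sum fun m hm => h3 n hn m hm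
      _ = 4 * τ * ∑ i : Fin (2 * y), ((J.filter (fun n => co c n i = 1)).card : ℝ) ^ 2 := by
          rw [← sum_In]
          simp_rw [← mul_sum]
      _ ≤ 4 * τ * ∑ i : Fin (2 * y), (64 * g) ^ 2 := by
          gcongr with i _
          have h4 := N_le c J hJlt i
          have h5 : ((J.filter (fun n => co c n i = 1)).card : ℝ) ≤ cnt c (2 * y) := by exact_mod_cast h4
          have h6 : (cnt c (2 * y) : ℝ) ≤ 64 * g := by rw [hg]; exact_mod_cast hG
          linarith
      _ = 4 * (τ * (2 * y)) * (64 * g) ^ 2 := by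
          rw [sum_const, nsmul_eq_mul, card_univ, Fintype.card_fin]
          push_cast
          ring
      _ = _ := by rw [hτ]
  -- Chebyshev
  have hch := Ex_cheb hp (fun v => ∑ n ∈ J, (sg (lin c b v n) - e n))
    (fun v => ((J.filter (fun n => lin c b v n = 1)).card : ℝ) < 64 * g) (4 * 10 ^ 7 * g / 6)
    (by positivity) ?_
  · refine hch.trans ?_
    rw [div_le_iff₀ (by positivity)]
    refine hvar.trans ?_
    have : 0 < g ^ 2 := by positivity
    nlinarith
  · intro v hv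
    have h2 : ∑ n ∈ J, sg (lin c b v n) = y - 2 * ((J.filter (fun n => lin c b v n = 1)).card : ℝ) := by
      rw [card_filter]
      push_cast
      rw [mul_sum]
      have h3 : (y : ℝ) = ∑ n ∈ J, (1 : ℝ) := by
        rw [sum_const, hJ, Nat.card_Ico, nsmul_eq_mul, mul_one]
        congr 1
        omega
      rw [h3, ← sum_sub_distrib]
      refine sum_congr rfl fun n _ => ?_
      rcases zmod2 (lin c b v n) with h4 | h4
      · rw [h4, sg_zero, if_neg (by decide)]; ring
      · rw [h4, sg_one, if_pos rfl]; ring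
    rw [sum_sub_distrib, h2]
    refine le_trans ?_ (le_abs_self _)
    linarith

end const

theorem t_GROW (hpair : S_PAIR) : S_GROW := by
  intro y t p c b hy hω ht hp h0 hG
  have hy0 : 0 < y := by omega
  have hyR : (250 : ℝ) ≤ y := by exact_mod_cast hy
  have hyp : (0 : ℝ) < y := by linarith
  have ht0 : 0 < t := by
    by_contra h
    have : t * (2 * y) ≤ 0 := mul_nonpos_of_nonpos_of_nonneg (not_lt.1 h) (by positivity)
    have h2 : (0 : ℝ) < 4 * 10 ^ 10 := by norm_num
    linarith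
  have hp01 : ∀ i, 0 ≤ p i ∧ p i ≤ 1 := fun i => ⟨by linarith [(hp i).1], by linarith [(hp i).2]⟩
  set g : ℝ := ((cnt c y : ℕ) : ℝ) with hg
  have hgpos : 0 < g := by rw [hg]; exact_mod_cast cnt_pos h0 hy0
  by_cases hc : 1000 ≤ t * g
  · -- the saturated case
    have h2 := hpair (2 * y) y t p c b (fun _ => 1) (Ico y (2 * y)) hy0 (by omega) ht0 ht hp h0
      (fun n hn => ⟨by have := (mem_Ico.1 hn).1; omega, (mem_Ico.1 hn).2⟩) (fun _ => by simp)
    simp only [one_mul] at h2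
    have h3 := Ex_cheb hp01 (fun v => ∑ n ∈ Ico y (2 * y), sg (lin c b v n)) (Bad y c b)
      (3 * y / 4) (by positivity) ?_
    · refine h3.trans ?_
      rw [div_le_iff₀ (by positivity)]
      refine h2.trans ?_
      rw [Nat.card_Ico]
      have e1 : ((2 * y - y : ℕ) : ℝ) = y := by congr 1; omega
      rw [e1]
      have h4 : 2 * ((2 * y : ℕ) : ℝ) / (t * cnt c y) ≤ 4 * y / 1000 := by
        push_cast
        rw [div_le_div_iff₀ (by positivity) (by norm_num)]
        nlinarith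
      have h5 : (y : ℝ) * (1 + 2 * ((2 * y : ℕ) : ℝ) / (t * cnt c y)) ≤ y * (1 + 4 * y / 1000) := by
        gcongr
      refine h5.trans ?_
      nlinarith
    · intro v hv
      have hb : (((Ico y (2 * y)).filter (fun n => lin c b v n = 1)).card : ℝ) < y / 8 :=
        lt_of_lt_of_le hv (min_le_right _ _)
      have h6 : ∑ n ∈ Ico y (2 * y), sg (lin c b v n) =
          y - 2 * (((Ico y (2 * y)).filter (fun n => lin c b v n = 1)).card : ℝ) := by
        rw [card_filter]
        push_cast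
        rw [mul_sum]
        have h7 : (y : ℝ) = ∑ n ∈ Ico y (2 * y), (1 : ℝ) := by
          rw [sum_const, Nat.card_Ico, nsmul_eq_mul, mul_one]
          congr 1
          omega
        rw [h7, ← sum_sub_distrib]
        refine sum_congr rfl fun n _ => ?_
        rcases zmod2 (lin c b v n) with h4 | h4
        · rw [h4, sg_zero, if_neg (by decide)]; ring
        · rw [h4, sg_one, if_pos rfl]; ring
      rw [h6]
      refine le_trans ?_ (le_abs_self _)
      linarith
  · -- the growing case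
    push Not at hc
    set τ : ℝ := 4 * 10 ^ 7 / (2 * y) with hτ
    have hτe : τ * (2 * y) = 4 * 10 ^ 7 := by rw [hτ]; field_simp
    have hτ0 : 0 < τ := by rw [hτ]; positivity
    have hτt : τ * 1000 ≤ t := by
      rw [hτ, div_mul_eq_mul_div, div_le_iff₀ (by positivity)]
      linarith
    have hτ2 : τ ≤ 1 / 2 := by linarith
    have hτ3 : τ < 1 / 2 := by linarith
    have hτg : τ * cnt c y ≤ 1 := by
      have : τ * 1000 * g ≤ t * g := mul_le_mul_of_nonneg_right hτt hgpos.le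
      rw [← hg]
      linarith
    have h1τ : 0 < 1 - 2 * τ := by linarith
    set s : Fin (2 * y) → ℝ := fun i => (p i - τ) / (1 - 2 * τ) with hs
    have hs01 : ∀ i, 0 ≤ s i ∧ s i ≤ 1 := by
      intro i
      rw [hs]
      simp only
      constructor
      · apply div_nonneg _ h1τ.le
        linarith [(hp i).1]
      · rw [div_le_one h1τ]
        linarith [(hp i).2]
    have hsp : ∀ i, p i = s i * (1 - τ) + τ * (1 - s i) := by
      intro i
      have : s i * (1 - 2 * τ) = p i - τ := div_mul_cancel₀ _ h1τ.ne'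
      linarith
    rw [Ex_xor s (fun _ => τ) hsp]
    have key : ∀ U : Fin (2 * y) → ZMod 2, Ex (fun _ : Fin (2 * y) => τ)
        (fun V => if Bad y c b (U + V) then (1 : ℝ) else 0) ≤ 1 / 64 := by
      intro U
      have h2 := grow_const (τ := τ) y hy0 c (fun n => lin c b U n) hτe hτ2 h0 hτg hG
      refine le_trans (Ex_mono (fun _ => ⟨hτ0.le, by linarith⟩) fun V => ?_) h2
      have h3 : Bad y c b (U + V) → (((Ico y (2 * y)).filter
          (fun n => lin c (fun n => lin c b U n) V n = 1)).card : ℝ) < 64 * cnt c y := by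
        intro h
        unfold Bad at h
        simp_rw [lin_add] at h
        exact lt_of_lt_of_le h (min_le_left _ _)
      split_ifs with h4 h5 h5
      · exact le_rfl
      · exact absurd (h3 h4) h5
      · norm_num
      · exact le_rfl
    refine (Ex_mono hs01 key).trans ?_
    rw [Ex_const]

end Pool.Agent.D0H10.PS
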