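import Mathlib

/-!
# Parity of partitions into parts from a random set: definitions and statements of the modules

Bits `u : ℕ → ZMod 2`; `u a = 1` means `a ∈ A`.  `Lin c`: the sequence `c n u` of parities
(`c 0 u = 1`, `c n u` depends on the bits up to `n` only) is linear in the bits `a ∈ [x, n]`
for `x ≤ n < 2 x`, with the coefficients `c (n - a) u`.
-/

set_option autoImplicit false

open scoped Classical

namespace Pool.Agent.D0H10.PS

open MeasureTheory ProbabilityTheory Filter Finset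

/-- the sign `(-1)^z` -/
noncomputable def sg (z : ZMod 2) : ℝ := if z = 0 then 1 else -1

/-- the number of the `j < X` with `c j = 1` -/
noncomputable def cnt (c : ℕ → ZMod 2) (X : ℕ) : ℕ := ((range X).filter (fun j => c j = 1)).card

/-- an affine form in the bits `v i`, `i ≤ n` -/
noncomputable def lin {x : ℕ} (c b : ℕ → ZMod 2) (v : Fin x → ZMod 2) (n : ℕ) : ZMod 2 :=
  b n + ∑ i : Fin x, if (i : ℕ) ≤ n then c (n - i) * v i else 0

/-- the probability of the bits `v` if `v i = 1` has the probability `p i`, independently -/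
noncomputable def wt {ι : Type} [Fintype ι] (p : ι → ℝ) (v : ι → ZMod 2) : ℝ :=
  ∏ i, if v i = 1 then p i else 1 - p i

/-- the expectation -/
noncomputable def Ex {ι : Type} [Fintype ι] (p : ι → ℝ) (φ : (ι → ZMod 2) → ℝ) : ℝ :=
  ∑ v, wt p v * φ v

/-- the number of the `n ∈ [y, 2y)` with `lin c b v n = 1` is less than `min (64 cnt c y) (y / 8)` -/
def Bad (y : ℕ) (c b : ℕ → ZMod 2) (v : Fin (2 * y) → ZMod 2) : Prop :=
  (((Ico y (2 * y)).filter (fun n => lin c b v n = 1)).card : ℝ) <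
    min (64 * (cnt c y : ℝ)) ((y : ℝ) / 8)

/-- cut off the bits at the places `≥ x` -/
def cut (x : ℕ) (u : ℕ → ZMod 2) : ℕ → ZMod 2 := fun j => if j < x then u j else 0

structure Lin (c : ℕ → (ℕ → ZMod 2) → ZMod 2) : Prop where
  zero : ∀ u, c 0 u = 1
  loc : ∀ n u u', (∀ j ≤ n, u j = u' j) → c n u = c n u'
  lin : ∀ x n u, x ≤ n → n < 2 * x → c n u = c n (cut x u) + ∑ a ∈ Icc x n, c (n - a) u * u a

/-- **PAIR.** Second moment of a signed sum over a block (finite statement). -/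
def S_PAIR : Prop := ∀ (x X : ℕ) (t : ℝ) (p : Fin x → ℝ) (c b : ℕ → ZMod 2) (w : ℕ → ℝ)
    (I : Finset ℕ), 0 < X → X ≤ x → 0 < t → t ≤ 1 / 2 → (∀ i, t ≤ p i ∧ p i ≤ 1 - t) → c 0 = 1 →
    (∀ n ∈ I, X ≤ n + 1 ∧ n < x) → (∀ n, |w n| ≤ 1) →
    Ex p (fun v => (∑ n ∈ I, w n * sg (lin c b v n)) ^ 2) ≤
      I.card * (1 + 2 * x / (t * cnt c X))

/-- **GROW.** The number of ones grows (finite statement); from PAIR. -/
def S_GROW : Prop := ∀ (y : ℕ) (t : ℝ) (p : Fin (2 * y) → ℝ) (c b : ℕ → ZMod 2), 250 ≤ y →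
    4 * 10 ^ 10 ≤ t * (2 * y) → t ≤ 1 / 2 → (∀ i, t ≤ p i ∧ p i ≤ 1 - t) → c 0 = 1 →
    cnt c (2 * y) ≤ 64 * cnt c y →
    Ex p (fun v => if Bad y c b v then 1 else 0) ≤ 1 / 64

/-- random bits `ξ a`, independent and measurable, `t k ≤ P(ξ a = 1) ≤ 1 - t k` for
`2^k ≤ a < 2^(k+1)`, for all large `k` -/
structure Bits {Ω : Type} [MeasurableSpace Ω] (P : Measure Ω) (ξ : ℕ → Ω → ZMod 2) (t : ℕ → ℝ) :
    Prop where
  meas : ∀ a, Measurable (ξ a)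
  ind : iIndepFun ξ P
  pos : ∀ k, 0 < t k ∧ t k ≤ 1 / 2
  rate : ∃ k0, ∀ k a, k0 ≤ k → 2 ^ k ≤ a → a < 2 ^ (k + 1) →
    t k ≤ P.real {ω | ξ a ω = 1} ∧ P.real {ω | ξ a ω = 1} ≤ 1 - t k

/-- the bits as a function of `ω` -/
def bits {Ω : Type} (ξ : ℕ → Ω → ZMod 2) (ω : Ω) : ℕ → ZMod 2 := fun a => ξ a ω

/-- **FUB.** Conditioning on the bits below `x`: for every function `Φ` of the past and of the bits in
`[x, 2x)`. -/
def S_FUB : Prop := ∀ (Ω : Type) [MeasurableSpace Ω] (P : Measure Ω) [IsProbabilityMeasure P]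
    (ξ : ℕ → Ω → ZMod 2), (∀ a, Measurable (ξ a)) → iIndepFun ξ P →
    ∀ (x : ℕ) (Φ : (ℕ → ZMod 2) → (Fin x → ZMod 2) → ℝ),
    Integrable (fun ω => Φ (cut x (bits ξ ω)) (fun i => ξ (x + i) ω)) P ∧
    Integrable (fun ω => Ex (fun i : Fin x => P.real {ω | ξ (x + i) ω = 1})
      (Φ (cut x (bits ξ ω)))) P ∧
    ∫ ω, Φ (cut x (bits ξ ω)) (fun i => ξ (x + i) ω) ∂P =
      ∫ ω, Ex (fun i : Fin x => P.real {ω | ξ (x + i) ω = 1}) (Φ (cut x (bits ξ ω))) ∂P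

/-- **MOM.** Second moments of the signed sums over parts of the dyadic blocks. -/
def S_MOM : Prop := ∀ (Ω : Type) [MeasurableSpace Ω] (P : Measure Ω) [IsProbabilityMeasure P]
    (ξ : ℕ → Ω → ZMod 2) (t : ℕ → ℝ) (c : ℕ → (ℕ → ZMod 2) → ZMod 2), Bits P ξ t → Lin c →
    Tendsto (fun k => 2 ^ k * t k) atTop atTop →
    ∃ (B : ℝ) (k0 : ℕ), 0 < B ∧ ∀ (s k : ℕ), s ≤ k → k0 ≤ k → ∀ (w : ℕ → ℝ), (∀ n, |w n| ≤ 1) →
      ∀ I : Finset ℕ, (∀ n ∈ I, 2 ^ k + 2 ^ (k - s) ≤ n ∧ n < 2 ^ (k + 1)) →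
      Integrable (fun ω => (∑ n ∈ I, w n * sg (c n (bits ξ ω))) ^ 2) P ∧
      ∫ ω, (∑ n ∈ I, w n * sg (c n (bits ξ ω))) ^ 2 ∂P ≤
        4 ^ k * (1 / 2 ^ k + 2 ^ (s + 1) * B / (2 ^ k * t k))

/-- **DET.** Deterministic averaging over the dyadic blocks with a grid of `2^s` points: only the parts
`[2^k + 2^(k-s), 2^k + j 2^(k-s))` are used. -/
def S_DET : Prop := ∀ g : ℕ → ℝ, (∀ n, |g n| ≤ 1) →
    (∀ s j : ℕ, 1 ≤ s → j ≤ 2 ^ s → Tendsto (fun k : ℕ =>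
      (∑ n ∈ Ico (2 ^ k + 2 ^ (k - s)) (2 ^ k + j * 2 ^ (k - s)), g n) / (2 : ℝ) ^ k) atTop (nhds 0)) →
    Tendsto (fun N : ℕ => (∑ n ∈ range N, g n) / (N : ℝ)) atTop (nhds 0)

/-- **AS.** Almost sure convergence. -/
def S_AS : Prop := ∀ (Ω : Type) [MeasurableSpace Ω] (P : Measure Ω) [IsProbabilityMeasure P]
    (ξ : ℕ → Ω → ZMod 2) (t : ℕ → ℝ) (c : ℕ → (ℕ → ZMod 2) → ZMod 2), Bits P ξ t → Lin c →
    Summable (fun k => 1 / (2 ^ k * t k)) → ∀ w : ℕ → ℝ, (∀ n, |w n| ≤ 1) →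
    ∀ᵐ ω ∂P, Tendsto (fun N : ℕ => (∑ n ∈ range N, w n * sg (c n (bits ξ ω))) / (N : ℝ))
      atTop (nhds 0)

/-- **MS.** Convergence in mean square. -/
def S_MS : Prop := ∀ (Ω : Type) [MeasurableSpace Ω] (P : Measure Ω) [IsProbabilityMeasure P]
    (ξ : ℕ → Ω → ZMod 2) (t : ℕ → ℝ) (c : ℕ → (ℕ → ZMod 2) → ZMod 2), Bits P ξ t → Lin c →
    Tendsto (fun k => 2 ^ k * t k) atTop atTop → ∀ w : ℕ → ℝ, (∀ n, |w n| ≤ 1) →
    Tendsto (fun N : ℕ => ∫ ω, ((∑ n ∈ range N, w n * sg (c n (bits ξ ω))) / (N : ℝ)) ^ 2 ∂P)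
      atTop (nhds 0)

/-- the number of the partitions of `n` with all parts in `A` -/
noncomputable def pA (A : Set ℕ) (n : ℕ) : ℕ := (Nat.Partition.restricted n (· ∈ A)).card

/-- the coefficients of the product of the series `∑ f_j q^j` and the generating function of `pA A` -/
noncomputable def conv (f : ℕ → ZMod 2) (n : ℕ) (u : ℕ → ZMod 2) : ZMod 2 :=
  ∑ j ∈ range (n + 1), f j * (pA {a | u a = 1} (n - j) : ZMod 2)

/-- **PART.** -/
def S_PART : Prop := ∀ f : ℕ → ZMod 2, f 0 = 1 → Lin (conv f)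

end Pool.Agent.D0H10.PS
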